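import Pool.Agent.H446R3.AG.GB

set_option autoImplicit false
set_option linter.unusedSectionVars false
open Topology Filter Polynomial
open scoped TensorProduct

namespace Pool.Agent.H446R3.AG

noncomputable section

/-- rational linear functionals approximating the identity on finitely many reals -/
lemma exists_functional (A : Finset ℝ) : ∃ f : ℕ → (ℝ →ₗ[ℚ] ℚ), ∀ a ∈ A,
    Tendsto (fun k => ((f k a : ℚ) : ℝ)) atTop (𝓝 a) := by
  classical
  let H : Submodule ℚ ℝ := Submodule.span ℚ (A : Set ℝ)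
  have hfin : FiniteDimensional ℚ H := FiniteDimensional.span_finset ℚ A
  let β := Module.finBasis ℚ H
  have hq : ∀ (k : ℕ) (i : Fin (Module.finrank ℚ H)), ∃ q : ℚ,
      |((β i : H) : ℝ) - q| < 1 / ((k : ℝ) + 1) := fun k i =>
    exists_rat_near _ (by positivity)
  choose q hq using hq
  have hext : ∀ k, ∃ g : ℝ →ₗ[ℚ] ℚ, g.comp H.subtype = β.constr ℚ (q k) := fun k =>
    LinearMap.exists_extend _
  choose f hf using hext
  refine ⟨f, fun a ha => ?_⟩
  have haH : a ∈ H := Submodule.subset_span ha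
  have h1 : ∀ k, f k a = ∑ i, β.repr ⟨a, haH⟩ i * q k i := by
    intro k
    have h2 : f k a = (f k).comp H.subtype ⟨a, haH⟩ := rfl
    rw [h2, hf, Module.Basis.constr_apply_fintype]
    simp only [Module.Basis.equivFun_apply, smul_eq_mul]
  have h3 : a = ∑ i, (β.repr ⟨a, haH⟩ i : ℝ) * ((β i : H) : ℝ) := by
    have h4 := congrArg (fun x : H => (x : ℝ)) (β.sum_repr ⟨a, haH⟩)
    simp only [Submodule.coe_sum, Submodule.coe_smul] at h4
    refine h4.symm.trans ?_
    exact Finset.sum_congr rfl fun i _ => by rw [Rat.smul_def]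
  have h5 : ∀ i, Tendsto (fun k => ((q k i : ℚ) : ℝ)) atTop (𝓝 ((β i : H) : ℝ)) := by
    intro i
    rw [tendsto_iff_dist_tendsto_zero]
    refine squeeze_zero (fun _ => dist_nonneg) (fun k => ?_)
      tendsto_one_div_add_atTop_nhds_zero_nat
    rw [dist_comm, Real.dist_eq]
    exact (hq k i).le
  have h6 : Tendsto (fun k => ∑ i, (β.repr ⟨a, haH⟩ i : ℝ) * ((q k i : ℚ) : ℝ)) atTop
      (𝓝 (∑ i, (β.repr ⟨a, haH⟩ i : ℝ) * ((β i : H) : ℝ))) :=
    tendsto_finsetSum _ fun i _ => (h5 i).const_mul _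
  rw [← h3] at h6
  refine h6.congr fun k => ?_
  rw [h1]
  push_cast
  rfl

/-- derivations -/
def IsD {F A : Type} [Field F] [LieRing A] [LieAlgebra F A] (D : A →ₗ[F] A) : Prop :=
  ∀ x y, D ⁅x, y⁆ = ⁅D x, y⁆ + ⁅x, D y⁆

lemma IsD.baseChange {M : Type} [LieRing M] [LieAlgebra ℚ M] (K : Type) [Field K] [Algebra ℚ K]
    {D : M →ₗ[ℚ] M} (hD : IsD D) : IsD (F := K) (A := K ⊗[ℚ] M) (D.baseChange K) := by
  intro x y
  induction x using TensorProduct.induction_on with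
  | zero => simp
  | add x1 x2 h1 h2 => rw [add_lie, map_add, h1, h2, map_add, add_lie, add_lie]; abel
  | tmul r u =>
    induction y using TensorProduct.induction_on with
    | zero => simp
    | add y1 y2 h1 h2 => rw [lie_add, map_add, h1, h2, map_add, lie_add, lie_add]; abel
    | tmul s v =>
      rw [LieAlgebra.ExtendScalars.bracket_tmul, LinearMap.baseChange_tmul,
        LinearMap.baseChange_tmul, LinearMap.baseChange_tmul,
        LieAlgebra.ExtendScalars.bracket_tmul, LieAlgebra.ExtendScalars.bracket_tmul, hD,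
        TensorProduct.tmul_add]

/-- slicing by a rational functional -/
def slice {K M : Type} [Field K] [Algebra ℚ K] [AddCommGroup M] [Module ℚ M] (f : K →ₗ[ℚ] ℚ) :
    K ⊗[ℚ] M →ₗ[ℚ] M :=
  (TensorProduct.lid ℚ M).toLinearMap ∘ₗ LinearMap.rTensor M f

lemma slice_tmul {K M : Type} [Field K] [Algebra ℚ K] [AddCommGroup M] [Module ℚ M]
    (f : K →ₗ[ℚ] ℚ) (r : K) (x : M) : slice f (r ⊗ₜ[ℚ] x) = f r • x := by
  unfold slice; simp

lemma slice_lie {K M : Type} [Field K] [Algebra ℚ K] [LieRing M] [LieAlgebra ℚ M]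
    (f : K →ₗ[ℚ] ℚ) (X : K ⊗[ℚ] M) (y : M) :
    slice f ⁅X, (1 : K) ⊗ₜ[ℚ] y⁆ = ⁅slice f X, y⁆ := by
  induction X using TensorProduct.induction_on with
  | zero => simp
  | add x1 x2 h1 h2 => rw [add_lie, map_add, h1, h2, map_add, add_lie]
  | tmul r u =>
    rw [LieAlgebra.ExtendScalars.bracket_tmul, mul_one, slice_tmul, slice_tmul, smul_lie]

lemma slice_lie' {K M : Type} [Field K] [Algebra ℚ K] [LieRing M] [LieAlgebra ℚ M]
    (f : K →ₗ[ℚ] ℚ) (X : K ⊗[ℚ] M) (y : M) :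
    slice f ⁅(1 : K) ⊗ₜ[ℚ] y, X⁆ = ⁅y, slice f X⁆ := by
  rw [← lie_skew, map_neg, slice_lie, lie_skew]

/-- slice of an endomorphism -/
def sliceEnd {M : Type} [AddCommGroup M] [Module ℚ M] (f : ℝ →ₗ[ℚ] ℚ)
    (D : ℝ ⊗[ℚ] M →ₗ[ℝ] ℝ ⊗[ℚ] M) : M →ₗ[ℚ] M where
  toFun m := slice f (D ((1 : ℝ) ⊗ₜ[ℚ] m))
  map_add' x y := by rw [TensorProduct.tmul_add, map_add, map_add]
  map_smul' c x := by
    rw [TensorProduct.tmul_smul, LinearMap.map_smul_of_tower, map_smul]; rfl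

lemma sliceEnd_isD {M : Type} [LieRing M] [LieAlgebra ℚ M] (f : ℝ →ₗ[ℚ] ℚ)
    {D : ℝ ⊗[ℚ] M →ₗ[ℝ] ℝ ⊗[ℚ] M} (hD : IsD D) : IsD (sliceEnd f D) := by
  intro x y
  change slice f (D ((1 : ℝ) ⊗ₜ[ℚ] ⁅x, y⁆)) = ⁅slice f (D ((1 : ℝ) ⊗ₜ[ℚ] x)), y⁆ +
    ⁅x, slice f (D ((1 : ℝ) ⊗ₜ[ℚ] y))⁆
  have h1 : (1 : ℝ) ⊗ₜ[ℚ] ⁅x, y⁆ = ⁅(1 : ℝ) ⊗ₜ[ℚ] x, (1 : ℝ) ⊗ₜ[ℚ] y⁆ := by
    rw [LieAlgebra.ExtendScalars.bracket_tmul, mul_one]
  rw [h1, hD, map_add, slice_lie, slice_lie']

lemma repr_slice {M : Type} [AddCommGroup M] [Module ℚ M] {ι : Type}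
    (m : Module.Basis ι ℚ M) (f : ℝ →ₗ[ℚ] ℚ) (X : ℝ ⊗[ℚ] M) (i : ι) :
    m.repr (slice f X) i = f ((Algebra.TensorProduct.basis ℝ m).repr X i) := by
  induction X using TensorProduct.induction_on with
  | zero => simp
  | add x1 x2 h1 h2 => rw [map_add, map_add, Finsupp.add_apply, h1, h2, map_add,
      Finsupp.add_apply, map_add]
  | tmul r u =>
    rw [slice_tmul, map_smul, Finsupp.smul_apply, Algebra.TensorProduct.basis_repr_tmul,
      Finsupp.smul_apply, Finsupp.mapRange_apply, smul_eq_mul, smul_eq_mul]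
    have h1 : r * (algebraMap ℚ ℝ) (m.repr u i) = (m.repr u i) • r := by
      rw [Algebra.smul_def, mul_comm]
    rw [h1, map_smul, smul_eq_mul, mul_comm]

/-- rational approximation of a real derivation with integral, pairwise distinct eigenvalues -/
lemma exists_rat_der {M : Type} [LieRing M] [LieAlgebra ℚ M] [FiniteDimensional ℚ M]
    {D : ℝ ⊗[ℚ] M →ₗ[ℝ] ℝ ⊗[ℚ] M} (hD : IsD D) {ι : Type} [Fintype ι] (w : ι → ℤ)
    (hw : Function.Injective w)
    (hc : ∀ y : ℝ, (LinearMap.charpoly D).eval y = ∏ i, (y - w i)) {η : ℝ} (hη : 0 < η)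
    (hη1 : η < 1) : ∃ D' : M →ₗ[ℚ] M, IsD D' ∧ ∃ y : ι → ℝ, ∀ i, |y i - w i| < η ∧
      aeval (y i) (LinearMap.charpoly D') = 0 := by
  classical
  let m := Module.finBasis ℚ M
  let mR := Algebra.TensorProduct.basis ℝ m
  set a := LinearMap.toMatrix mR mR D with ha
  let A : Finset ℝ := Finset.univ.image (fun p : Fin _ × Fin _ => a p.1 p.2)
  obtain ⟨f, hf⟩ := exists_functional A
  let am : ℕ → Matrix (Fin (Module.finrank ℚ M)) (Fin (Module.finrank ℚ M)) ℝ := fun k =>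
    (a.map (f k)).map (algebraMap ℚ ℝ)
  have ham : Tendsto am atTop (𝓝 a) := by
    refine tendsto_pi_nhds.2 fun i => tendsto_pi_nhds.2 fun j => ?_
    exact hf (a i j) (Finset.mem_image.2 ⟨(i, j), Finset.mem_univ _, rfl⟩)
  have hmat : ∀ k, LinearMap.toMatrix m m (sliceEnd (f k) D) = a.map (f k) := by
    intro k
    ext i j
    rw [LinearMap.toMatrix_apply, Matrix.map_apply, ha, LinearMap.toMatrix_apply]
    change m.repr (slice (f k) (D ((1 : ℝ) ⊗ₜ[ℚ] m j))) i = _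
    rw [repr_slice, Algebra.TensorProduct.basis_apply]
  have hev : ∀ k (y : ℝ), aeval y (LinearMap.charpoly (sliceEnd (f k) D)) =
      (am k).charpoly.eval y := by
    intro k y
    rw [← LinearMap.charpoly_toMatrix _ m, hmat]
    change _ = (((a.map (f k)).map (algebraMap ℚ ℝ)).charpoly).eval y
    rw [Matrix.charpoly_map, eval_map_algebraMap]
  have hlim : ∀ y : ℝ, Tendsto (fun k => (am k).charpoly.eval y) atTop
      (𝓝 (∏ i, (y - w i))) := by
    intro y
    have h1 : Continuous (fun N : Matrix (Fin (Module.finrank ℚ M)) (Fin (Module.finrank ℚ M)) ℝ =>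
        N.charpoly.eval y) := by
      simp only [Matrix.eval_charpoly]
      exact (continuous_const.sub continuous_id).matrix_det
    have h2 := (h1.tendsto a).comp ham
    rw [← hc, ← LinearMap.charpoly_toMatrix D mR]
    exact h2
  have hneg : ∀ i, (∏ j, ((w i - η : ℝ) - w j)) * ∏ j, ((w i + η : ℝ) - w j) < 0 := by
    intro i
    rw [← Finset.prod_mul_distrib, ← Finset.mul_prod_erase _ _ (Finset.mem_univ i)]
    refine mul_neg_of_neg_of_pos (by nlinarith) (Finset.prod_pos fun j hj => ?_)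
    have hne : w i ≠ w j := fun h => (Finset.ne_of_mem_erase hj) (hw h).symm
    have h1 : (1:ℝ) ≤ ((w i : ℝ) - w j) ^ 2 := by
      have h2 : (1:ℤ) ≤ (w i - w j) ^ 2 := by
        have : w i - w j ≠ 0 := sub_ne_zero.2 hne
        have := sq_pos_of_ne_zero this
        omega
      exact_mod_cast h2
    nlinarith
  have hev2 : ∀ᶠ k in atTop, ∀ i, (am k).charpoly.eval (w i - η) *
      (am k).charpoly.eval (w i + η) < 0 := by
    rw [eventually_all]
    intro i
    exact ((hlim _).mul (hlim _)).eventually_lt_const (hneg i)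
  obtain ⟨k, hk⟩ := hev2.exists
  refine ⟨sliceEnd (f k) D, sliceEnd_isD _ hD, ?_⟩
  have hroot : ∀ i, ∃ y : ℝ, |y - w i| < η ∧ (am k).charpoly.eval y = 0 := by
    intro i
    have hcont : ContinuousOn (fun y => (am k).charpoly.eval y)
        (Set.Icc (w i - η) (w i + η)) := (am k).charpoly.continuous.continuousOn
    have hle : (w i - η : ℝ) ≤ w i + η := by linarith
    rcases mul_neg_iff.1 (hk i) with ⟨h1, h2⟩ | ⟨h1, h2⟩
    · obtain ⟨y, hy, hy0⟩ := intermediate_value_Ioo' hle hcont ⟨h2, h1⟩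
      exact ⟨y, by rw [abs_lt]; constructor <;> linarith [hy.1, hy.2], hy0⟩
    · obtain ⟨y, hy, hy0⟩ := intermediate_value_Ioo hle hcont ⟨h1, h2⟩
      exact ⟨y, by rw [abs_lt]; constructor <;> linarith [hy.1, hy.2], hy0⟩
  choose y hy using hroot
  exact ⟨y, fun i => ⟨(hy i).1, by rw [hev]; exact (hy i).2⟩⟩

end

end Pool.Agent.H446R3.AG
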