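import Pool.Agent.H446R3.AG.Est

set_option autoImplicit false
set_option linter.unusedSectionVars false
open Topology Filter Polynomial
open scoped TensorProduct

namespace Pool.Agent.H446R3.AG

noncomputable section

variable {n : ℕ} (G : SimpleGraph (Fin n))

open Classical in
/-- the class of a vertex -/
def cl (s : Fin n) : Finset (Fin n) := Finset.univ.filter (Coh G s)

variable {G}

lemma mem_cl {s t : Fin n} : t ∈ cl G s ↔ Coh G s t := by
  unfold cl; simp

lemma cl_eq {s t : Fin n} (h : Coh G s t) : cl G s = cl G t := by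
  ext u
  rw [mem_cl, mem_cl]
  exact ⟨fun h2 => h.symm.trans h2, fun h2 => h.trans h2⟩

lemma exists_mult (δ : Fin n → QA) : ∃ N : ℕ, 0 < N ∧ ∀ k : ℕ, ∀ s,
    IsIntegral ℤ (((N * k : ℕ) : QA) * δ s) := by
  classical
  have h1 : ∀ s, ∃ y ≠ (0 : ℤ), IsIntegral ℤ (y • δ s) := by
    intro s
    have halg := algQA
    have h2 : IsAlgebraic ℚ (δ s) := Algebra.IsAlgebraic.isAlgebraic _
    have h3 : IsAlgebraic ℤ (δ s) := (IsFractionRing.isAlgebraic_iff ℤ ℚ QA).2 h2
    exact h3.exists_integral_multiple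
  choose y hy0 hy using h1
  refine ⟨∏ s, (y s).natAbs, Finset.prod_pos fun s _ => Int.natAbs_pos.2 (hy0 s), fun k s => ?_⟩
  have h2 : (y s) ∣ (((∏ s, (y s).natAbs) * k : ℕ) : ℤ) := by
    rw [← Int.natAbs_dvd_natAbs, Int.natAbs_natCast]
    exact (Finset.dvd_prod_of_mem (fun s => (y s).natAbs) (Finset.mem_univ s)).mul_right k
  obtain ⟨r, hr⟩ := h2
  have h3 : ((((∏ s, (y s).natAbs) * k : ℕ) : ℕ) : QA) * δ s = r • (y s • δ s) := by
    have h4 : ((((∏ s, (y s).natAbs) * k : ℕ) : ℕ) : QA) =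
        ((((∏ s, (y s).natAbs) * k : ℕ) : ℤ) : QA) := (Int.cast_natCast _).symm
    rw [h4, hr, zsmul_eq_mul, zsmul_eq_mul]
    push_cast
    ring
  rw [h3]
  exact (hy s).smul r

variable [Fintype G.edgeSet] {M : Type} [LieRing M] [LieAlgebra ℚ M] [FiniteDimensional ℚ M]

/-- image of a vertex under the companion automorphism -/
def xs (G : SimpleGraph (Fin n)) {A : Type} [AddCommGroup A] [Module QA A] (δ : Fin n → QA)
    (c : Fin n → QA) (b : Fin n → A) (t : Fin n) : A :=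
  δ t • b t - (∏ j ∈ (cl G t).erase t, (δ t - δ j))⁻¹ •
      ∑ u ∈ cl G t, (δ u ^ (cl G t).card - c t * δ u ^ ((cl G t).card - 1) + 1) • b u

lemma coh_perm {ρ : Equiv.Perm (Fin n)} (h : ∀ s t, G.Adj s t ↔ G.Adj (ρ s) (ρ t)) (s t : Fin n) :
    Coh G s t ↔ Coh G (ρ s) (ρ t) := by
  constructor
  · intro h1 u hs ht
    obtain ⟨v, rfl⟩ := ρ.surjective u
    rw [← h s v, ← h t v]
    exact h1 v (fun h2 => hs (by rw [h2])) (fun h2 => ht (by rw [h2]))
  · intro h1 u hs ht
    rw [h s u, h t u]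
    exact h1 (ρ u) (fun h2 => hs (ρ.injective h2)) (fun h2 => ht (ρ.injective h2))

lemma cl_perm {ρ : Equiv.Perm (Fin n)} (h : ∀ s t, G.Adj s t ↔ G.Adj (ρ s) (ρ t)) (s : Fin n) :
    cl G (ρ s) = (cl G s).map ρ.toEmbedding := by
  ext u
  obtain ⟨v, rfl⟩ := ρ.surjective u
  rw [mem_cl, Finset.mem_map]
  constructor
  · intro h1
    exact ⟨v, mem_cl.2 ((coh_perm h s v).2 h1), rfl⟩
  · rintro ⟨w, hw, hwv⟩
    have : w = v := ρ.injective hwv
    rw [← this]
    exact (coh_perm h s w).1 (mem_cl.1 hw)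

lemma sg_xs {ρ : Equiv.Perm (Fin n)} (h : ∀ s t, G.Adj s t ↔ G.Adj (ρ s) (ρ t))
    (σ : QA ≃ₐ[ℚ] QA) (δ c : Fin n → QA) (b : Fin n → QA ⊗[ℚ] M)
    (hδ : ∀ s, σ (δ s) = δ (ρ s)) (hc : ∀ s, σ (c s) = c (ρ s))
    (hb : ∀ s, sg σ (b s) = b (ρ s)) (t : Fin n) :
    sg σ (xs G δ c b t) = xs G δ c b (ρ t) := by
  classical
  unfold xs
  have e1 : (cl G (ρ t)).card = (cl G t).card := by rw [cl_perm h, Finset.card_map]
  have e2 : ∏ j ∈ (cl G (ρ t)).erase (ρ t), (δ (ρ t) - δ j) =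
      ∏ j ∈ (cl G t).erase t, (δ (ρ t) - δ (ρ j)) := by
    have h2 : (cl G (ρ t)).erase (ρ t) = ((cl G t).erase t).map ρ.toEmbedding := by
      rw [cl_perm h, Finset.map_erase]; rfl
    rw [h2, Finset.prod_map]; rfl
  rw [map_sub, sg_smul, sg_smul, map_sum, e1, e2, cl_perm h, Finset.sum_map, hδ, hb, map_inv₀,
    map_prod]
  congr 2
  · congr 1
    exact Finset.prod_congr rfl fun j _ => by rw [map_sub, hδ, hδ]
  · refine Finset.sum_congr rfl fun u _ => ?_
    rw [sg_smul, hb]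
    simp only [map_add, map_sub, map_mul, map_pow, map_one, hδ, hc]
    rfl

/-- the main construction -/
lemma build {D : M →ₗ[ℚ] M} {e : Module.Basis (Fin n ⊕ G.edgeSet) QA (QA ⊗[ℚ] M)}
    {δ : Fin n ⊕ G.edgeSet → QA} (h : EB (D.baseChange QA) e δ) {v : M}
    (hv : (1 : QA) ⊗ₜ[ℚ] v = ∑ i, e i) (j : QA →+* ℂ) (y : Fin n → ℝ)
    (hj : ∀ s, j (δ (Sum.inl s)) = (y s : ℂ))
    (hy1 : ∀ s, 1 / 2 ≤ ∑ u ∈ cl G s, y u)
    (hy2 : ∀ s t, ¬ Coh G s t → 1 / 2 ≤ |∑ u ∈ cl G s, y u - ∑ u ∈ cl G t, y u|)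
    (hc1 : ∀ s, ∃ t, t ≠ s ∧ Coh G s t)
    (hc2 : ∀ s t, G.Adj s t → Coh G s t → ∃ u, u ≠ s ∧ u ≠ t ∧ Coh G s u) :
    ∃ g : M ≃ₗ⁅ℚ⁆ M, ∃ q : Polynomial ℤ,
          q.map (Int.castRingHom ℚ) = LinearMap.charpoly g.toLinearEquiv.toLinearMap ∧
          (q.coeff 0 = 1 ∨ q.coeff 0 = -1) ∧
          ∀ z : ℂ, (q.map (Int.castRingHom ℂ)).IsRoot z → ‖z‖ ≠ 1 := by
  classical
  obtain ⟨b, hb, hbl, hbr⟩ := h.exists_GB
  set δ' : Fin n → QA := fun s => δ (Sum.inl s) with hδ'
  obtain ⟨N₀, hN₀, hint⟩ := exists_mult δ'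
  set θ : Fin n → ℝ := fun s => ∑ u ∈ cl G s, y u with hθ
  -- choice of the multiplier
  obtain ⟨k, hk⟩ := exists_nat_ge (4 * (∑ s, |θ s|) + 8)
  have hΘ : ∀ s, θ s ≤ ∑ s, |θ s| := fun s =>
    (le_abs_self _).trans (Finset.single_le_sum (f := fun s => |θ s|)
      (fun _ _ => abs_nonneg _) (Finset.mem_univ s))
  have hΘ0 : 0 ≤ ∑ s, |θ s| := Finset.sum_nonneg fun _ _ => abs_nonneg _
  set Nn : ℕ := N₀ * k with hNn
  have hNk : (k : ℝ) ≤ Nn := by
    rw [hNn]; push_cast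
    have : (1:ℝ) ≤ N₀ := by exact_mod_cast hN₀
    nlinarith [Nat.cast_nonneg (α := ℝ) k]
  have hN8 : (8:ℝ) ≤ Nn := by linarith
  have hNΘ : 4 * (∑ s, |θ s|) + 8 ≤ (Nn : ℝ) := by linarith
  set c : Fin n → QA := fun s => (Nn : QA) * ∑ u ∈ cl G s, δ' u with hc
  have hcint : ∀ s, IsIntegral ℤ (c s) := by
    intro s
    have : c s = ∑ u ∈ cl G s, (Nn : QA) * δ' u := by
      rw [hc]; simp only; rw [Finset.mul_sum]
    rw [this]
    exact IsIntegral.sum _ fun u _ => hint k u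
  have hjc : ∀ s, j (c s) = ((Nn * θ s : ℝ) : ℂ) := by
    intro s
    rw [hc, hθ]
    simp only
    rw [map_mul, map_natCast, map_sum]
    push_cast
    congr 1
    exact Finset.sum_congr rfl fun u _ => hj u
  have hccoh : ∀ s t, Coh G s t → c s = c t := fun s t hst => by
    rw [hc]; simp only; rw [cl_eq hst]
  -- cardinalities
  have hcard2 : ∀ s, 2 ≤ (cl G s).card := by
    intro s
    obtain ⟨t, hts, hco⟩ := hc1 s
    exact Finset.one_lt_card.2 ⟨s, mem_cl.2 (Coh.refl s), t, mem_cl.2 hco, hts.symm⟩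
  have hcard3 : ∀ s t, G.Adj s t → Coh G s t → 3 ≤ (cl G s).card := by
    intro s t hst hco
    obtain ⟨u, hus, hut, hu⟩ := hc2 s t hst hco
    have h1 : ({s, t, u} : Finset (Fin n)) ⊆ cl G s := by
      intro w hw
      simp only [Finset.mem_insert, Finset.mem_singleton] at hw
      rcases hw with rfl | rfl | rfl
      · exact mem_cl.2 (Coh.refl _)
      · exact mem_cl.2 hco
      · exact mem_cl.2 hu
    have h2 : ({s, t, u} : Finset (Fin n)).card = 3 :=
      Finset.card_eq_three.2 ⟨s, t, u, hst.ne, hus.symm, hut.symm, rfl⟩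
    rw [← h2]; exact Finset.card_le_card h1
  -- the homomorphism
  set b' : Fin n → QA ⊗[ℚ] M := fun s => b (Sum.inl s) with hb'
  have hsupp : ∀ t, xs G δ' c b' t ∈ VS b (Coh G t) := by
    intro t
    have h1 : ∀ u, Coh G t u → b' u ∈ VS b (Coh G t) := by
      intro u hu w hw
      rw [hb'] at hw
      simp only at hw
      rw [vc_inl] at hw
      by_cases h4 : w = u
      · rw [h4]; exact hu
      · rw [if_neg h4] at hw; exact absurd rfl hw
    unfold xs
    exact Submodule.sub_mem _ (Submodule.smul_mem _ _ (h1 t (Coh.refl t)))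
      (Submodule.smul_mem _ _ (Submodule.sum_mem _ fun u hu =>
        Submodule.smul_mem _ _ (h1 u (mem_cl.1 hu))))
  have hx : ∀ s t, ¬ G.Adj s t → ⁅xs G δ' c b' s, xs G δ' c b' t⁆ = 0 := by
    intro s t hst
    rcases eq_or_ne s t with rfl | hne
    · exact lie_self _
    · rw [hb.lie_expand]
      refine Finset.sum_eq_zero fun u _ => ?_
      by_cases hu : vc b u (xs G δ' c b' t) = 0
      · rw [hu, zero_smul]
      · have h1 : ⁅xs G δ' c b' s, b (Sum.inl u)⁆ = 0 := by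
          rw [← lie_skew, hb.lie_expand, neg_eq_zero]
          refine Finset.sum_eq_zero fun w _ => ?_
          by_cases hw : vc b w (xs G δ' c b' s) = 0
          · rw [hw, zero_smul]
          · rw [hb.nadj, smul_zero]
            intro hadj
            exact Coh.not_adj (hsupp s w hw) (hsupp t u hu) hne hst hadj.symm
        rw [h1, smul_zero]
  obtain ⟨g, hgH, hgx⟩ := hb.exists_hom (xs G δ' c b') hx
  -- equivariance
  have heq : ∀ (σ : QA ≃ₐ[ℚ] QA) x, sg σ (g x) = g (sg σ x) := by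
    intro σ
    obtain ⟨ρ, hρ1, hρ2, hρ3⟩ := galois_perm h hv σ
    have hvert : ∀ s, sg σ (g (b (Sum.inl s))) = g (sg σ (b (Sum.inl s))) := by
      intro s
      have h1 : ∀ s, sg σ (b' s) = b' (ρ s) := fun s => by
        rw [hb']; simp only; rw [hbl, hbl, hρ2]
      rw [hgx, sg_xs hρ3 σ δ' c b' hρ1 ?_ h1 s]
      · have h2 := h1 s
        rw [hb'] at h2
        simp only at h2
        rw [h2, hgx]
      · intro s
        rw [hc]
        simp only
        rw [map_mul, map_natCast, map_sum, cl_perm hρ3, Finset.sum_map]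
        congr 1
        exact Finset.sum_congr rfl fun u _ => hρ1 u
    have hall : ∀ k, sg σ (g (b k)) = g (sg σ (b k)) := by
      rintro (s | x)
      · exact hvert s
      · obtain ⟨p, hp, hlt, hx⟩ := ends x
        rw [hx, ← hb.adj p.1 p.2 hp hlt, hgH, sg_lie, sg_lie, hgH, hvert, hvert]
    intro x
    rw [← b.sum_repr x, map_sum, map_sum, map_sum, map_sum]
    refine Finset.sum_congr rfl fun k _ => ?_
    rw [map_smul, sg_smul, sg_smul, map_smul, hall]
  obtain ⟨g₀, hg₀, hgg⟩ := descent hgH heq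
  -- spectrum
  let q : Fin n → QA[X] := fun s => qp (cl G s).card (c s)
  have hinj : Function.Injective δ' := h.inj.comp Sum.inl_injective
  have hq : ∀ s, aeval g (q s) (b (Sum.inl s)) = 0 := by
    intro s
    refine companion (cl G s) δ' hinj.injOn b' g (c s) ?_ ?_ s (mem_cl.2 (Coh.refl s))
    · have := hcard2 s; omega
    · intro t ht
      have hco := mem_cl.1 ht
      have h1 := hgx t
      unfold xs at h1
      rw [← cl_eq hco, ← hccoh s t hco] at h1
      exact h1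
  have hroot : ∀ z : QA, ((LinearMap.charpoly g₀).map (algebraMap ℚ QA)).IsRoot z →
      IsIntegral ℤ z ∧ IsIntegral ℤ z⁻¹ ∧ z ≠ 0 ∧ ‖j z‖ ≠ 1 := by
    intro z hz
    rw [← LinearMap.charpoly_baseChange, ← hgg] at hz
    have hz' : Module.End.HasEigenvalue g z :=
      (Module.End.hasEigenvalue_iff_isRoot_charpoly g z).2 hz
    have hjq : ∀ s α, (q s).eval α = 0 →
        (qp (cl G s).card ((Nn * θ s : ℝ) : ℂ)).eval (j α) = 0 := by
      intro s α hα
      have h1 := hcard2 s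
      rw [qp_eval (by omega), ← hjc]
      have h2 : (q s).eval α = α ^ ((cl G s).card - 1) * (α - c s) + 1 := qp_eval (by omega) _ _
      rw [hα] at h2
      have h3 := congrArg j h2
      rw [map_zero] at h3
      rw [h3]
      simp only [map_add, map_mul, map_pow, map_sub, map_one]
    have hge : ∀ s, 4 ≤ (Nn : ℝ) * θ s := by
      intro s
      have := hy1 s
      have h3 : (8:ℝ) * (1 / 2) ≤ (Nn : ℝ) * θ s :=
        mul_le_mul hN8 this (by norm_num) (by linarith)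
      linarith
    have hsq : ∀ s t, (Nn : ℝ) * θ t + 1 ≤ ((Nn : ℝ) * θ s - 1) ^ 2 := by
      intro s t
      have h1 := hy1 s
      have h2 := hΘ t
      have h3 : (Nn : ℝ) / 2 ≤ (Nn : ℝ) * θ s := by
        have : (Nn : ℝ) * (1 / 2) ≤ (Nn : ℝ) * θ s := mul_le_mul_of_nonneg_left h1 (by linarith)
        linarith
      have h4 : (Nn : ℝ) * θ t ≤ (Nn : ℝ) * ∑ s, |θ s| :=
        mul_le_mul_of_nonneg_left h2 (by linarith)
      have h5 : ((Nn : ℝ) / 2 - 1) ^ 2 ≤ ((Nn : ℝ) * θ s - 1) ^ 2 :=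
        pow_le_pow_left₀ (by linarith) (by linarith) 2
      nlinarith
    rcases hb.spectrum hgH q hq hz' with ⟨s, hs⟩ | ⟨s, t, hst, α, β, hα, hβ, hzab⟩
    · obtain ⟨i1, i2, i3⟩ := unit_root (hcard2 s) (hcint s) hs
      refine ⟨i1, i2, i3, ?_⟩
      exact est_one (by have := hcard2 s; omega) (by have := hge s; linarith) (hjq s z hs)
    · obtain ⟨i1, i2, i3⟩ := unit_root (hcard2 s) (hcint s) hα
      obtain ⟨k1, k2, k3⟩ := unit_root (hcard2 t) (hcint t) hβ
      refine ⟨hzab ▸ i1.mul k1, ?_, hzab ▸ mul_ne_zero i3 k3, ?_⟩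
      · rw [hzab, mul_inv]; exact i2.mul k2
      · rw [hzab, map_mul]
        have hdiff : ¬ Coh G s t → 1 ≤ |(Nn : ℝ) * θ s - (Nn : ℝ) * θ t| := by
          intro hn
          rw [← mul_sub, abs_mul, abs_of_nonneg (by linarith : (0:ℝ) ≤ Nn)]
          have h1 := hy2 s t hn
          have h2 : (8:ℝ) * (1 / 2) ≤ (Nn : ℝ) * |θ s - θ t| :=
            mul_le_mul hN8 h1 (by norm_num) (by linarith)
          linarith
        refine est_two (hcard2 s) (hcard2 t) (hge s) (hge t) (hsq s t) (hsq t s) ?_ ?_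
          (hjq s α hα) (hjq t β hβ)
        · intro h2
          refine hdiff fun hco => ?_
          have := hcard3 s t hst hco
          rw [cl_eq hco] at this; omega
        · intro h2
          refine hdiff fun hco => ?_
          have := hcard3 s t hst hco
          omega
  obtain ⟨qz, hqz, hq0, hqr⟩ := int_poly (LinearMap.charpoly_monic g₀) j hroot
  -- bijectivity
  have hinj₀ : Function.Injective g₀ := by
    rw [← LinearMap.ker_eq_bot]
    by_contra hker
    obtain ⟨x, hx, hx0⟩ := Submodule.exists_mem_ne_zero_of_ne_bot hker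
    have h1 : Module.End.HasEigenvalue g₀ 0 := by
      refine Module.End.hasEigenvalue_of_hasEigenvector (x := x) ⟨?_, hx0⟩
      rw [Module.End.mem_eigenspace_iff, zero_smul]
      exact hx
    have h2 := (Module.End.hasEigenvalue_iff_isRoot_charpoly g₀ 0).1 h1
    have h3 : ((LinearMap.charpoly g₀).map (algebraMap ℚ QA)).IsRoot 0 := by
      have := h2.map (f := algebraMap ℚ QA)
      rwa [map_zero] at this
    exact (hroot 0 h3).2.2.1 rfl
  have hbij : Function.Bijective g₀ := ⟨hinj₀, LinearMap.injective_iff_surjective.1 hinj₀⟩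
  let gl : M →ₗ⁅ℚ⁆ M := { g₀ with map_lie' := fun {x y} => hg₀ x y }
  refine ⟨LieEquiv.ofBijective gl hbij, qz, ?_, hq0, hqr⟩
  rw [hqz]
  congr 1

end

end Pool.Agent.H446R3.AG
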