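import Mathlib

set_option autoImplicit false

namespace Pool.Agent.H446R3.AG

variable {n : ℕ} (G : SimpleGraph (Fin n))

/-- coherent vertices: same neighbours outside the pair -/
def Coh (s t : Fin n) : Prop := ∀ u, u ≠ s → u ≠ t → (G.Adj s u ↔ G.Adj t u)

variable {G}

lemma Coh.refl (s : Fin n) : Coh G s s := fun _ _ _ => Iff.rfl

lemma Coh.symm {s t : Fin n} (h : Coh G s t) : Coh G t s := fun u h1 h2 => (h u h2 h1).symm

lemma Coh.trans {s t u : Fin n} (h : Coh G s t) (h' : Coh G t u) : Coh G s u := by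
  rcases eq_or_ne s t with rfl | hst
  · exact h'
  rcases eq_or_ne t u with rfl | htu
  · exact h
  rcases eq_or_ne s u with rfl | hsu
  · exact Coh.refl _
  intro w h1 h2
  rcases eq_or_ne w t with rfl | hwt
  · have a1 := h u hsu.symm htu.symm
    have a2 := h' s hst hsu
    rw [G.adj_comm s u, G.adj_comm w u] at a1
    rw [G.adj_comm w s] at a2
    rw [a2, a1]
  · exact (h w h1 hwt).trans (h' w hwt h2)

/-- adjacency between different classes depends only on the classes -/
lemma Coh.adj {s t s' t' : Fin n} (hs : Coh G s s') (ht : Coh G t t') (hst : ¬ Coh G s t) :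
    G.Adj s t ↔ G.Adj s' t' := by
  have e1 : t ≠ s := fun h => hst (h ▸ Coh.refl _)
  have e2 : t ≠ s' := fun h => hst (h ▸ hs)
  have e3 : s' ≠ t' := fun h => hst (hs.trans (h ▸ ht.symm))
  rw [hs t e1 e2, G.adj_comm, ht s' e2.symm e3, G.adj_comm]

/-- inside a class, adjacency is all or nothing -/
lemma Coh.adj_same {s t s' t' : Fin n} (hs : Coh G s s') (ht : Coh G t t') (hst : Coh G s t)
    (hne : s ≠ t) (hne' : s' ≠ t') : G.Adj s t ↔ G.Adj s' t' := by
  rcases eq_or_ne s s' with rfl | h1
  · rcases eq_or_ne t t' with rfl | h2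
    · rfl
    · rw [G.adj_comm, G.adj_comm s t']
      exact ht s hne hne'
  · rcases eq_or_ne t s' with rfl | h3
    · -- s' = t
      rcases eq_or_ne t' s with rfl | h4
      · exact G.adj_comm _ _
      · -- s, t, t' distinct
        have a1 : G.Adj s t' ↔ G.Adj t t' := hst t' h4 (Ne.symm hne')
        have a2 : G.Adj t s ↔ G.Adj t' s := ht s hne (Ne.symm h4)
        rw [G.adj_comm s t, a2, G.adj_comm t' s, a1]
    · rw [hs t (Ne.symm hne) h3]
      rcases eq_or_ne t t' with rfl | h2
      · rfl
      · rw [G.adj_comm, G.adj_comm s' t']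
        exact ht s' h3.symm hne'

/-- non-adjacent vertices stay non-adjacent (or equal) inside their classes -/
lemma Coh.not_adj {s t s' t' : Fin n} (hs : Coh G s s') (ht : Coh G t t') (hne : s ≠ t)
    (h : ¬ G.Adj s t) : ¬ G.Adj s' t' := by
  by_cases hst : Coh G s t
  · intro h2
    exact h ((hs.adj_same ht hst hne h2.ne).2 h2)
  · exact fun h2 => h ((hs.adj ht hst).2 h2)

set_option linter.unusedSectionVars false

variable [DecidableRel G.Adj]

lemma Coh.degree {s t : Fin n} (h : Coh G s t) : G.degree s = G.degree t := by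
  classical
  rcases eq_or_ne s t with rfl | hst
  · rfl
  have h1 : (G.neighborFinset s).erase t = (G.neighborFinset t).erase s := by
    ext u
    simp only [Finset.mem_erase, SimpleGraph.mem_neighborFinset]
    constructor
    · rintro ⟨a, b⟩
      have hus : u ≠ s := b.ne'
      exact ⟨hus, (h u hus a).1 b⟩
    · rintro ⟨a, b⟩
      have hut : u ≠ t := b.ne'
      exact ⟨hut, (h u a hut).2 b⟩
  unfold SimpleGraph.degree
  by_cases hadj : G.Adj s t
  · have m1 : t ∈ G.neighborFinset s := by simpa using hadj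
    have m2 : s ∈ G.neighborFinset t := by simpa using hadj.symm
    rw [← Finset.card_erase_add_one m1, ← Finset.card_erase_add_one m2, h1]
  · have m1 : t ∉ G.neighborFinset s := by simpa using hadj
    have m2 : s ∉ G.neighborFinset t := by
      simpa using fun h2 : G.Adj t s => hadj h2.symm
    rw [← Finset.erase_eq_of_notMem m1, ← Finset.erase_eq_of_notMem m2, h1]

lemma coh_of_sub {s t : Fin n} (h1 : ∀ x, G.Adj s x → x ≠ t → G.Adj t x)
    (h2 : ∀ x, G.Adj t x → x ≠ s → G.Adj s x) : Coh G s t :=
  fun u hs ht => ⟨fun h => h1 u h ht, fun h => h2 u h hs⟩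

end Pool.Agent.H446R3.AG
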