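import Pool.Agent.H446R3.AG.Gal

set_option autoImplicit false
set_option linter.unusedSectionVars false
open Topology Filter Polynomial
open scoped TensorProduct

namespace Pool.Agent.H446R3.AG

noncomputable section

/-- the companion polynomial -/
def qp {R : Type} [CommRing R] (m : ℕ) (c : R) : R[X] := X ^ m - C c * X ^ (m - 1) + 1

section comp

variable {F A ι : Type} [Field F] [AddCommGroup A] [Module F A] [DecidableEq ι]

lemma companion (S : Finset ι) (δ : ι → F) (hδ : Set.InjOn δ S) (b : ι → A) (g : A →ₗ[F] A)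
    (c : F) (hS : 0 < S.card)
    (hg : ∀ t ∈ S, g (b t) = δ t • b t - (∏ j ∈ S.erase t, (δ t - δ j))⁻¹ •
      ∑ u ∈ S, (δ u ^ S.card - c * δ u ^ (S.card - 1) + 1) • b u) :
    ∀ t ∈ S, aeval g (qp S.card c) (b t) = 0 := by
  set m := S.card with hm
  set W := ∑ u ∈ S, (δ u ^ m - c * δ u ^ (m - 1) + 1) • b u with hW
  let B : F[X] → A := fun P => ∑ t ∈ S, P.eval (δ t) • b t
  have hgB : ∀ i, i < m → g (B (X ^ i)) = B (X ^ (i + 1)) - (if i = m - 1 then (1:F) else 0) • W := by
    intro i hi
    have h1 : (X ^ i : F[X]).degree < (S.card : ℕ) := by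
      rw [degree_X_pow]; exact_mod_cast hi
    have h2 := Lagrange.coeff_eq_sum hδ h1
    rw [← hm, coeff_X_pow] at h2
    change g (∑ t ∈ S, (X ^ i : F[X]).eval (δ t) • b t) =
      ∑ t ∈ S, (X ^ (i + 1) : F[X]).eval (δ t) • b t - _
    have h3 : (if i = m - 1 then (1:F) else 0) = if m - 1 = i then 1 else 0 := by
      simp only [eq_comm]
    rw [map_sum, h3, h2, Finset.sum_smul, ← Finset.sum_sub_distrib]
    refine Finset.sum_congr rfl fun t ht => ?_
    rw [map_smul, hg t ht, smul_sub, smul_smul, smul_smul, eval_pow, eval_X, eval_pow, eval_X,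
      pow_succ, div_eq_mul_inv]
  have hpow : ∀ i, i < m → (g ^ i) (B 1) = B (X ^ i) := by
    intro i
    induction i with
    | zero => intro _; rw [pow_zero, pow_zero]; rfl
    | succ i ih =>
      intro hi
      rw [pow_succ', Module.End.mul_apply, ih (by omega), hgB i (by omega),
        if_neg (by omega), zero_smul, sub_zero]
  have hq : aeval g (qp m c) (B 1) = 0 := by
    have h1 : (g ^ m) (B 1) = B (X ^ m) - W := by
      have h2 : m = (m - 1) + 1 := by omega
      conv_lhs => rw [h2]
      rw [pow_succ', Module.End.mul_apply, hpow _ (by omega), hgB _ (by omega), if_pos rfl,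
        one_smul, ← h2]
    have h2 : aeval g (qp m c) (B 1) = (g ^ m) (B 1) - c • (g ^ (m - 1)) (B 1) + B 1 := by
      unfold qp
      rw [map_add, map_sub, map_mul, map_pow, map_pow, aeval_X, aeval_C, map_one]
      rfl
    rw [h2, h1, hpow _ (by omega), hW]
    change ∑ t ∈ S, (X ^ m : F[X]).eval (δ t) • b t -
      ∑ u ∈ S, (δ u ^ m - c * δ u ^ (m - 1) + 1) • b u -
      c • ∑ t ∈ S, (X ^ (m - 1) : F[X]).eval (δ t) • b t + ∑ t ∈ S, (1 : F[X]).eval (δ t) • b t = 0
    rw [Finset.smul_sum, ← Finset.sum_sub_distrib, ← Finset.sum_sub_distrib,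
      ← Finset.sum_add_distrib]
    refine Finset.sum_eq_zero fun t _ => ?_
    rw [eval_pow, eval_X, eval_pow, eval_X, eval_one]
    module
  intro t ht
  have hL : aeval g (Lagrange.basis S δ t) (B 1) = b t := by
    have hdeg : (Lagrange.basis S δ t).natDegree < m := by
      rw [Lagrange.natDegree_basis hδ ht, ← hm]; omega
    rw [aeval_eq_sum_range' hdeg, LinearMap.sum_apply]
    have h1 : ∀ i ∈ Finset.range m, ((Lagrange.basis S δ t).coeff i • g ^ i) (B 1) =
        ∑ u ∈ S, ((Lagrange.basis S δ t).coeff i * δ u ^ i) • b u := by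
      intro i hi
      rw [LinearMap.smul_apply, hpow i (Finset.mem_range.1 hi)]
      change _ • ∑ u ∈ S, (X ^ i : F[X]).eval (δ u) • b u = _
      rw [Finset.smul_sum]
      refine Finset.sum_congr rfl fun u _ => ?_
      rw [smul_smul, eval_pow, eval_X]
    rw [Finset.sum_congr rfl h1, Finset.sum_comm]
    have h2 : ∀ u ∈ S, ∑ i ∈ Finset.range m,
        ((Lagrange.basis S δ t).coeff i * δ u ^ i) • b u =
        (Lagrange.basis S δ t).eval (δ u) • b u := by
      intro u _
      rw [← Finset.sum_smul, ← eval_eq_sum_range' hdeg]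
    rw [Finset.sum_congr rfl h2, Finset.sum_eq_single t]
    · rw [Lagrange.eval_basis_self hδ ht, one_smul]
    · intro u hu hut
      rw [Lagrange.eval_basis_of_ne hut.symm hu, zero_smul]
    · intro h; exact absurd ht h
  rw [← hL, ← Module.End.mul_apply, ← map_mul, mul_comm, map_mul, Module.End.mul_apply, hq,
    map_zero]

end comp

section gen

variable {F A : Type} [Field F] [LieRing A] [LieAlgebra F A]

/-- generalised eigenvectors and brackets -/
lemma lie_gen {g : A →ₗ[F] A} (hg : IsH g) (α β : F) : ∀ (N a b : ℕ), a + b = N → ∀ x y : A,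
    ((g - algebraMap F (Module.End F A) α) ^ a) x = 0 →
    ((g - algebraMap F (Module.End F A) β) ^ b) y = 0 →
    ((g - algebraMap F (Module.End F A) (α * β)) ^ N) ⁅x, y⁆ = 0 := by
  intro N
  induction N with
  | zero =>
    intro a b hab x y hx hy
    have ha : a = 0 := by omega
    rw [ha, pow_zero, Module.End.one_apply] at hx
    rw [hx, zero_lie, map_zero]
  | succ N ih =>
    intro a b hab x y hx hy
    rcases Nat.eq_zero_or_pos a with ha | ha
    · rw [ha, pow_zero, Module.End.one_apply] at hx
      rw [hx, zero_lie, map_zero]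
    rcases Nat.eq_zero_or_pos b with hb | hb
    · rw [hb, pow_zero, Module.End.one_apply] at hy
      rw [hy, lie_zero, map_zero]
    have h1 : (g - algebraMap F (Module.End F A) (α * β)) ⁅x, y⁆ =
        ⁅(g - algebraMap F (Module.End F A) α) x, g y⁆ +
        α • ⁅x, (g - algebraMap F (Module.End F A) β) y⁆ := by
      rw [LinearMap.sub_apply, LinearMap.sub_apply, LinearMap.sub_apply,
        Module.algebraMap_end_apply, Module.algebraMap_end_apply, Module.algebraMap_end_apply,
        hg, sub_lie, lie_sub, smul_lie, lie_smul, smul_sub, smul_smul]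
      abel
    rw [pow_succ, Module.End.mul_apply, h1, map_add, map_smul]
    have h2 : ((g - algebraMap F (Module.End F A) β) ^ b) (g y) = 0 := by
      have hcomm : (g - algebraMap F (Module.End F A) β) ^ b * g =
          g * (g - algebraMap F (Module.End F A) β) ^ b := by
        have : Commute (g - algebraMap F (Module.End F A) β) g :=
          (Commute.refl g).sub_left (Algebra.commutes _ _)
        exact (this.pow_left b).eq
      rw [← Module.End.mul_apply, hcomm, Module.End.mul_apply, hy, map_zero]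
    have h3 := ih (a - 1) b (by omega) ((g - algebraMap F (Module.End F A) α) x) (g y) (by
      rw [← Module.End.mul_apply, ← pow_succ, Nat.sub_add_cancel ha]; exact hx) h2
    have h4 := ih a (b - 1) (by omega) x ((g - algebraMap F (Module.End F A) β) y) hx (by
      rw [← Module.End.mul_apply, ← pow_succ, Nat.sub_add_cancel hb]; exact hy)
    rw [h3, h4, smul_zero, add_zero]

lemma lie_maxGen {g : A →ₗ[F] A} (hg : IsH g) {α β : F} {x y : A}
    (hx : x ∈ Module.End.maxGenEigenspace g α) (hy : y ∈ Module.End.maxGenEigenspace g β) :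
    ⁅x, y⁆ ∈ Module.End.maxGenEigenspace g (α * β) := by
  rw [Module.End.mem_maxGenEigenspace] at hx hy ⊢
  obtain ⟨a, ha⟩ := hx
  obtain ⟨b, hb⟩ := hy
  refine ⟨a + b, ?_⟩
  have := lie_gen hg α β (a + b) a b rfl x y (by
    rw [Algebra.algebraMap_eq_smul_one]; exact ha) (by
    rw [Algebra.algebraMap_eq_smul_one]; exact hb)
  rw [Algebra.algebraMap_eq_smul_one] at this
  exact this

lemma split_gen [IsAlgClosed F] [FiniteDimensional F A] (g : A →ₗ[F] A) {q : F[X]} {x : A}
    (hx : aeval g q x = 0) :
    x ∈ ⨆ α ∈ {α : F | q.eval α = 0}, Module.End.maxGenEigenspace g α := by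
  have h1 : ∀ y ∈ LinearMap.ker (aeval g q), g y ∈ LinearMap.ker (aeval g q) := by
    intro y hy
    rw [LinearMap.mem_ker] at hy ⊢
    have h2 : aeval g q * g = g * aeval g q := by
      have e1 : aeval g (q * X) = aeval g q * g := by rw [map_mul, aeval_X]
      have e2 : aeval g (X * q) = g * aeval g q := by rw [map_mul, aeval_X]
      rw [← e1, ← e2, mul_comm]
    rw [← Module.End.mul_apply, h2, Module.End.mul_apply, hy, map_zero]
  have h2 := Submodule.inf_iSup_genEigenspace (p := LinearMap.ker (aeval g q)) (f := g) h1 ⊤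
  have h3 : ⨆ μ, Module.End.genEigenspace g μ ⊤ = ⊤ :=
    Module.End.iSup_maxGenEigenspace_eq_top g
  rw [h3, inf_top_eq] at h2
  have h4 : x ∈ LinearMap.ker (aeval g q) := hx
  rw [h2] at h4
  have h8 : ⨆ μ, LinearMap.ker (aeval g q) ⊓ Module.End.genEigenspace g μ ⊤ ≤
      ⨆ α ∈ {α : F | q.eval α = 0}, Module.End.maxGenEigenspace g α := ?_
  · exact h8 h4
  refine iSup_le fun μ => ?_
  by_cases hμ : q.eval μ = 0
  · exact inf_le_right.trans (le_iSup₂_of_le (f := fun α (_ : α ∈ {α : F | q.eval α = 0}) =>
      Module.End.maxGenEigenspace g α) μ hμ le_rfl)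
  · have h5 : LinearMap.ker (aeval g q) ⊓ Module.End.genEigenspace g μ ⊤ = ⊥ := by
      rw [eq_bot_iff]
      rintro y ⟨hy1, hy2⟩
      have hy2' : y ∈ Module.End.maxGenEigenspace g μ := hy2
      rw [Module.End.mem_maxGenEigenspace] at hy2'
      obtain ⟨k, hk⟩ := hy2'
      have hcop : IsCoprime q ((X - C μ) ^ k) := by
        refine IsCoprime.pow_right ?_
        refine IsCoprime.symm ?_
        rw [(irreducible_X_sub_C μ).coprime_iff_not_dvd, dvd_iff_isRoot]
        exact hμ
      obtain ⟨u, v, huv⟩ := hcop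
      have h6 := congrArg (fun P => aeval g P y) huv
      simp only [map_add, map_mul, map_pow, map_sub, aeval_X, aeval_C, map_one,
        LinearMap.add_apply, Module.End.mul_apply, Module.End.one_apply] at h6
      have h7 : aeval g q y = 0 := hy1
      rw [Algebra.algebraMap_eq_smul_one, hk, h7, map_zero, map_zero, add_zero] at h6
      exact h6.symm
    rw [h5]; exact bot_le

end gen

end

end Pool.Agent.H446R3.AG
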