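import Pool.Agent.H446R3.AG.Approx

set_option autoImplicit false
set_option linter.unusedSectionVars false
open Topology Filter Polynomial
open scoped TensorProduct

namespace Pool.Agent.H446R3.AG

noncomputable section

/-- span of all brackets -/
def der (F A : Type) [Field F] [LieRing A] [LieAlgebra F A] : Submodule F A :=
  Submodule.span F (Set.range fun p : A × A => ⁅p.1, p.2⁆)

lemma lie_mem_der (F : Type) {A : Type} [Field F] [LieRing A] [LieAlgebra F A] (x y : A) :
    ⁅x, y⁆ ∈ der F A := Submodule.subset_span ⟨(x, y), rfl⟩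

lemma finrank_baseChange_sub {M : Type} [AddCommGroup M] [Module ℚ M] [FiniteDimensional ℚ M]
    (K : Type) [Field K] [Algebra ℚ K] (p : Submodule ℚ M) :
    Module.finrank K (p.baseChange K) = Module.finrank ℚ p := by
  have h1 : p.baseChange K = LinearMap.range (p.subtype.baseChange K) := by
    have h3 : LinearMap.range (p.subtype.baseChange K) =
        ((⊤ : Submodule K (K ⊗[ℚ] p))).map (p.subtype.baseChange K) := LinearMap.range_eq_map _
    rw [h3, ← Submodule.baseChange_top, Submodule.baseChange_eq_span,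
      Submodule.baseChange_eq_span, Submodule.map_span]
    congr 1
    ext z
    constructor
    · rintro ⟨u, hu, rfl⟩
      exact ⟨1 ⊗ₜ ⟨u, hu⟩, ⟨⟨u, hu⟩, trivial, rfl⟩, by simp⟩
    · rintro ⟨_, ⟨u, -, rfl⟩, rfl⟩
      exact ⟨u.1, u.2, by simp⟩
  have h2 : Function.Injective (p.subtype.baseChange K) :=
    Module.Flat.lTensor_preserves_injective_linearMap (M := K) p.subtype p.injective_subtype
  rw [h1, LinearMap.finrank_range_of_inj h2, Module.finrank_baseChange]

lemma der_baseChange {M : Type} [LieRing M] [LieAlgebra ℚ M] (K : Type) [Field K]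
    [Algebra ℚ K] : der K (K ⊗[ℚ] M) = (der ℚ M).baseChange K := by
  apply le_antisymm
  · refine Submodule.span_le.2 ?_
    rintro _ ⟨⟨x, y⟩, rfl⟩
    change ⁅x, y⁆ ∈ (der ℚ M).baseChange K
    induction x using TensorProduct.induction_on with
    | zero => simp
    | add x1 x2 h1 h2 => rw [add_lie]; exact Submodule.add_mem _ h1 h2
    | tmul r u =>
      induction y using TensorProduct.induction_on with
      | zero => simp
      | add y1 y2 h1 h2 => rw [lie_add]; exact Submodule.add_mem _ h1 h2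
      | tmul s v =>
        rw [LieAlgebra.ExtendScalars.bracket_tmul]
        exact Submodule.tmul_mem_baseChange_of_mem _ (lie_mem_der ℚ u v)
  · rw [der, Submodule.baseChange_span]
    refine Submodule.span_le.2 ?_
    rintro _ ⟨_, ⟨⟨u, v⟩, rfl⟩, rfl⟩
    have h1 : (1 : K) ⊗ₜ[ℚ] ⁅u, v⁆ = ⁅(1 : K) ⊗ₜ[ℚ] u, (1 : K) ⊗ₜ[ℚ] v⁆ := by
      rw [LieAlgebra.ExtendScalars.bracket_tmul, mul_one]
    change (1 : K) ⊗ₜ[ℚ] ⁅u, v⁆ ∈ der K (K ⊗[ℚ] M)
    rw [h1]
    exact lie_mem_der K _ _

lemma finrank_der_baseChange {M : Type} [LieRing M] [LieAlgebra ℚ M] [FiniteDimensional ℚ M]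
    (K : Type) [Field K] [Algebra ℚ K] :
    Module.finrank K (der K (K ⊗[ℚ] M)) = Module.finrank ℚ (der ℚ M) := by
  rw [der_baseChange, finrank_baseChange_sub]

lemma finrank_der_equiv {F A B : Type} [Field F] [LieRing A] [LieAlgebra F A] [LieRing B]
    [LieAlgebra F B] (e : A ≃ₗ⁅F⁆ B) :
    Module.finrank F (der F A) = Module.finrank F (der F B) := by
  have h1 : der F B = (der F A).map e.toLinearEquiv.toLinearMap := by
    rw [der, der, Submodule.map_span]
    congr 1
    ext z
    constructor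
    · rintro ⟨⟨x, y⟩, rfl⟩
      refine ⟨⁅e.symm x, e.symm y⁆, ⟨(e.symm x, e.symm y), rfl⟩, ?_⟩
      change e ⁅e.symm x, e.symm y⁆ = ⁅x, y⁆
      rw [LieEquiv.map_lie, LieEquiv.apply_symm_apply, LieEquiv.apply_symm_apply]
    · rintro ⟨_, ⟨⟨x, y⟩, rfl⟩, rfl⟩
      refine ⟨(e x, e y), ?_⟩
      change ⁅e x, e y⁆ = e ⁅x, y⁆
      rw [LieEquiv.map_lie]
  rw [h1]
  exact (LinearEquiv.finrank_map_eq e.toLinearEquiv _).symm

variable {n : ℕ} {G : SimpleGraph (Fin n)} {F A : Type} [Field F] [LieRing A] [LieAlgebra F A]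
  {b : Module.Basis (Fin n ⊕ G.edgeSet) F A}

lemma finrank_der_GB [Fintype G.edgeSet] (h : GB b) :
    Module.finrank F (der F A) = Fintype.card G.edgeSet := by
  classical
  have h1 : der F A = Submodule.span F (Set.range fun e : G.edgeSet => b (Sum.inr e)) := by
    apply le_antisymm
    · refine Submodule.span_le.2 ?_
      rintro _ ⟨⟨x, y⟩, rfl⟩
      change ⁅x, y⁆ ∈ _
      rw [expand b ⁅x, y⁆]
      refine Submodule.add_mem _ (Submodule.sum_mem _ fun t _ => ?_)
        (Submodule.sum_mem _ fun e _ => Submodule.smul_mem _ _ (Submodule.subset_span ⟨e, rfl⟩))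
      rw [h.vc_lie, zero_smul]; exact Submodule.zero_mem _
    · refine Submodule.span_le.2 ?_
      rintro _ ⟨e, rfl⟩
      obtain ⟨e, he⟩ := e
      induction e using Sym2.ind with
      | _ i j =>
        have hij : G.Adj i j := G.mem_edgeSet.1 he
        rcases lt_or_gt_of_ne hij.ne with hlt | hlt
        · change b (Sum.inr ⟨s(i, j), he⟩) ∈ der F A
          rw [← h.adj i j hij hlt]; exact lie_mem_der F _ _
        · have h3 : (⟨s(i, j), he⟩ : G.edgeSet) = ⟨s(j, i), G.mem_edgeSet.mpr hij.symm⟩ :=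
            Subtype.ext Sym2.eq_swap
          change b (Sum.inr ⟨s(i, j), he⟩) ∈ der F A
          rw [h3, ← h.adj j i hij.symm hlt]; exact lie_mem_der F _ _
  rw [h1]
  exact finrank_span_eq_card (b.linearIndependent.comp _ Sum.inr_injective)

end

end Pool.Agent.H446R3.AG
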