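import Pool.Agent.H446R3.AG.Der

set_option autoImplicit false
set_option linter.unusedSectionVars false
open Topology Filter Polynomial
open scoped TensorProduct

namespace Pool.Agent.H446R3.AG

noncomputable section

variable {n : ℕ} {G : SimpleGraph (Fin n)} {F A : Type} [Field F] [LieRing A] [LieAlgebra F A]

/-- a basis of eigenvectors of a derivation with generic eigenvalues -/
structure EB [Fintype G.edgeSet] (D : A →ₗ[F] A) (e : Module.Basis (Fin n ⊕ G.edgeSet) F A)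
    (δ : Fin n ⊕ G.edgeSet → F) : Prop where
  inj : Function.Injective δ
  eig : ∀ i, D (e i) = δ i • e i
  isD : IsD D
  cen : ∀ (x : G.edgeSet) j k, δ (Sum.inr x) + δ j ≠ δ k
  adj : ∀ s t k, s ≠ t → δ (Sum.inl s) + δ (Sum.inl t) = δ k →
    ∃ h : G.Adj s t, k = Sum.inr ⟨s(s, t), G.mem_edgeSet.mpr h⟩
  fin : Module.finrank F (der F A) = Fintype.card G.edgeSet

variable [Fintype G.edgeSet] {D : A →ₗ[F] A} {e : Module.Basis (Fin n ⊕ G.edgeSet) F A}
  {δ : Fin n ⊕ G.edgeSet → F}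

lemma EB.repr_D (h : EB D e δ) (x : A) (k : Fin n ⊕ G.edgeSet) :
    e.repr (D x) k = δ k * e.repr x k := by
  classical
  have h1 : (Finsupp.lapply k).comp (e.repr.toLinearMap.comp D) =
      δ k • (Finsupp.lapply k).comp e.repr.toLinearMap := by
    refine e.ext fun i => ?_
    simp only [LinearMap.comp_apply, LinearEquiv.coe_coe, h.eig, map_smul, LinearMap.smul_apply,
      Module.Basis.repr_self, Finsupp.lapply_apply, smul_eq_mul, Finsupp.single_apply]
    by_cases hik : i = k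
    · subst hik; rfl
    · rw [if_neg hik, mul_zero, mul_zero]
  exact congrArg (fun f : A →ₗ[F] F => f x) h1

lemma EB.supp (h : EB D e δ) {x : A} {μ : F} (hx : D x = μ • x) {k : Fin n ⊕ G.edgeSet}
    (hk : e.repr x k ≠ 0) : δ k = μ := by
  have h1 := h.repr_D x k
  rw [hx, map_smul, Finsupp.smul_apply, smul_eq_mul] at h1
  exact (mul_right_cancel₀ hk h1).symm

lemma EB.eq_zero (h : EB D e δ) {x : A} {μ : F} (hx : D x = μ • x) (hμ : ∀ k, δ k ≠ μ) :
    x = 0 := by
  apply e.repr.injective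
  rw [map_zero]
  ext k
  by_contra hk
  exact hμ k (h.supp hx hk)

lemma EB.eq_smul (h : EB D e δ) {x : A} {k : Fin n ⊕ G.edgeSet} (hx : D x = δ k • x) :
    x = e.repr x k • e k := by
  classical
  apply e.repr.injective
  rw [map_smul, Module.Basis.repr_self]
  ext j
  rw [Finsupp.smul_apply, Finsupp.single_apply, smul_eq_mul]
  by_cases hjk : k = j
  · rw [if_pos hjk, hjk, mul_one]
  · rw [if_neg hjk, mul_zero]
    by_contra hj
    exact hjk (h.inj (h.supp hx hj)).symm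

lemma EB.lie_eig (h : EB D e δ) (i j : Fin n ⊕ G.edgeSet) :
    D ⁅e i, e j⁆ = (δ i + δ j) • ⁅e i, e j⁆ := by
  rw [h.isD, h.eig, h.eig, smul_lie, lie_smul, add_smul]

lemma EB.lie_cen (h : EB D e δ) (x : G.edgeSet) (j : Fin n ⊕ G.edgeSet) :
    ⁅e (Sum.inr x), e j⁆ = 0 :=
  h.eq_zero (h.lie_eig _ _) fun k hk => h.cen x j k hk.symm

lemma EB.lie_nadj (h : EB D e δ) {s t : Fin n} (hst : ¬ G.Adj s t) :
    ⁅e (Sum.inl s), e (Sum.inl t)⁆ = 0 := by
  rcases eq_or_ne s t with rfl | hne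
  · exact lie_self _
  · exact h.eq_zero (h.lie_eig _ _) fun k hk => hst (h.adj s t k hne hk.symm).1

lemma EB.lie_adj (h : EB D e δ) {s t : Fin n} (hst : G.Adj s t) :
    ∃ c : F, ⁅e (Sum.inl s), e (Sum.inl t)⁆ = c • e (Sum.inr ⟨s(s, t), G.mem_edgeSet.mpr hst⟩) := by
  by_cases hk : ∃ k, δ k = δ (Sum.inl s) + δ (Sum.inl t)
  · obtain ⟨k, hk⟩ := hk
    obtain ⟨h1, h2⟩ := h.adj s t k hst.ne hk.symm
    have h3 := h.lie_eig (Sum.inl s) (Sum.inl t)
    rw [← hk] at h3
    exact ⟨_, h2 ▸ h.eq_smul h3⟩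
  · push Not at hk
    exact ⟨0, by rw [zero_smul]; exact h.eq_zero (h.lie_eig _ _) hk⟩

lemma EB.lie_ne (h : EB D e δ) {s t : Fin n} (hst : G.Adj s t) :
    ⁅e (Sum.inl s), e (Sum.inl t)⁆ ≠ 0 := by
  classical
  intro h0
  set x : G.edgeSet := ⟨s(s, t), G.mem_edgeSet.mpr hst⟩ with hx
  let T : Submodule F A := Submodule.span F
    (Set.range fun y : {y : G.edgeSet // y ≠ x} => e (Sum.inr y.1))
  have key : ∀ i j, ⁅e i, e j⁆ ∈ T := by
    intro i j
    rcases i with i | i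
    · rcases j with j | j
      · by_cases hij : G.Adj i j
        · obtain ⟨c, hc⟩ := h.lie_adj hij
          by_cases hxe : (⟨s(i, j), G.mem_edgeSet.mpr hij⟩ : G.edgeSet) = x
          · have h1 := congrArg Subtype.val hxe
            simp only [hx, Sym2.eq_iff] at h1
            rcases h1 with ⟨h1, h2⟩ | ⟨h1, h2⟩
            · rw [h1, h2, h0]; exact T.zero_mem
            · rw [h1, h2, ← lie_skew, h0, neg_zero]; exact T.zero_mem
          · rw [hc]
            exact T.smul_mem _ (Submodule.subset_span ⟨⟨_, hxe⟩, rfl⟩)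
        · rw [h.lie_nadj hij]; exact T.zero_mem
      · rw [← lie_skew, h.lie_cen, neg_zero]; exact T.zero_mem
    · rw [h.lie_cen]; exact T.zero_mem
  have h1 : (br F A).compr₂ T.mkQ = 0 := by
    refine LinearMap.ext_basis e e fun i j => ?_
    rw [LinearMap.compr₂_apply, br_apply]
    exact (Submodule.Quotient.mk_eq_zero T).2 (key i j)
  have hle : der F A ≤ T := by
    refine Submodule.span_le.2 ?_
    rintro _ ⟨⟨u, v⟩, rfl⟩
    have h2 := congrArg (fun f : A →ₗ[F] A →ₗ[F] (A ⧸ T) => f u v) h1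
    exact (Submodule.Quotient.mk_eq_zero T).1 h2
  have hT : FiniteDimensional F T := FiniteDimensional.span_of_finite F (Set.finite_range _)
  have h2 : Module.finrank F (der F A) ≤ Module.finrank F T := Submodule.finrank_mono hle
  have h3 : Module.finrank F T ≤ Fintype.card {y : G.edgeSet // y ≠ x} := finrank_range_le_card _
  rw [h.fin] at h2
  have h4 : Fintype.card {y : G.edgeSet // y ≠ x} < Fintype.card G.edgeSet :=
    Fintype.card_subtype_lt (x := x) (by simp)
  omega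

lemma ends (x : G.edgeSet) : ∃ p : Fin n × Fin n, ∃ h : G.Adj p.1 p.2, p.1 < p.2 ∧
    x = ⟨s(p.1, p.2), G.mem_edgeSet.mpr h⟩ := by
  obtain ⟨x, hx⟩ := x
  induction x using Sym2.ind with
  | _ i j =>
    have hij : G.Adj i j := G.mem_edgeSet.1 hx
    rcases lt_or_gt_of_ne hij.ne with hlt | hlt
    · exact ⟨(i, j), hij, hlt, rfl⟩
    · exact ⟨(j, i), hij.symm, hlt, Subtype.ext Sym2.eq_swap⟩

lemma ends_unique {i j i' j' : Fin n} {h : s(i, j) ∈ G.edgeSet} {h' : s(i', j') ∈ G.edgeSet}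
    (hij : i < j) (hij' : i' < j')
    (he : (⟨s(i, j), h⟩ : G.edgeSet) = ⟨s(i', j'), h'⟩) : i = i' ∧ j = j' := by
  have h1 := congrArg Subtype.val he
  simp only [Sym2.eq_iff] at h1
  rcases h1 with h1 | ⟨h1, h2⟩
  · exact h1
  · subst h1; subst h2; exact absurd hij (lt_asymm hij')

/-- rescaling gives a graph basis -/
lemma EB.exists_GB (h : EB D e δ) : ∃ b : Module.Basis (Fin n ⊕ G.edgeSet) F A, GB b ∧
    (∀ s, b (Sum.inl s) = e (Sum.inl s)) ∧
    ∀ x, ∃ c : F, c ≠ 0 ∧ b (Sum.inr x) = c • e (Sum.inr x) := by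
  classical
  choose P hP1 hP2 hP3 using fun x : G.edgeSet => ends x
  have hc : ∀ x : G.edgeSet, ∃ c : F, c ≠ 0 ∧
      ⁅e (Sum.inl (P x).1), e (Sum.inl (P x).2)⁆ = c • e (Sum.inr x) := by
    intro x
    obtain ⟨c, hc⟩ := h.lie_adj (hP1 x)
    rw [← hP3 x] at hc
    refine ⟨c, fun h0 => h.lie_ne (hP1 x) ?_, hc⟩
    rw [hc, h0, zero_smul]
  choose c hc0 hc using hc
  let w : Fin n ⊕ G.edgeSet → F := Sum.elim (fun _ => 1) c
  have hw : ∀ i, IsUnit (w i) := by
    rintro (i | i)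
    · exact isUnit_one
    · exact (hc0 i).isUnit
  refine ⟨e.isUnitSMul hw, ⟨?_, ?_, ?_⟩, ?_, ?_⟩
  · intro i j hij hlt
    simp only [Module.Basis.isUnitSMul_apply]
    change ⁅(1 : F) • e (Sum.inl i), (1 : F) • e (Sum.inl j)⁆ = c _ • e (Sum.inr _)
    rw [one_smul, one_smul]
    have h1 := ends_unique hlt (hP2 ⟨s(i, j), G.mem_edgeSet.mpr hij⟩) (hP3 _)
    have h2 := hc ⟨s(i, j), G.mem_edgeSet.mpr hij⟩
    rw [← h1.1, ← h1.2] at h2
    exact h2
  · intro i j hij
    simp only [Module.Basis.isUnitSMul_apply]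
    rw [smul_lie, lie_smul, h.lie_nadj hij, smul_zero, smul_zero]
  · intro x k
    simp only [Module.Basis.isUnitSMul_apply]
    rw [smul_lie, lie_smul, h.lie_cen, smul_zero, smul_zero]
  · intro s
    rw [Module.Basis.isUnitSMul_apply]
    exact one_smul _ _
  · intro x
    exact ⟨c x, hc0 x, by rw [Module.Basis.isUnitSMul_apply]; rfl⟩

end

end Pool.Agent.H446R3.AG
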