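import Pool.Agent.H446R3.AG.Rank

set_option autoImplicit false
set_option linter.unusedSectionVars false
open Polynomial

namespace Pool.Agent.H446R3.AG

noncomputable section

/-- the data of an Anosov map -/
def An {A : Type} [AddCommGroup A] [Module ℚ A] [FiniteDimensional ℚ A] (f : A →ₗ[ℚ] A)
    (p : Polynomial ℤ) : Prop :=
  p.map (Int.castRingHom ℚ) = LinearMap.charpoly f ∧
    (p.coeff 0 = 1 ∨ p.coeff 0 = -1) ∧
    ∀ z : ℂ, (p.map (Int.castRingHom ℂ)).IsRoot z → ‖z‖ ≠ 1

lemma integral_unit {K : Type} [Field K] [CharZero K] {p : Polynomial ℤ} (hm : p.Monic)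
    (h0 : p.coeff 0 = 1 ∨ p.coeff 0 = -1) {z : K} (hz : aeval z p = 0) :
    IsIntegral ℤ z ∧ IsIntegral ℤ z⁻¹ ∧ z ≠ 0 := by
  have h1 : IsIntegral ℤ z := ⟨p, hm, hz⟩
  have h2 : aeval z p.divX * z + ((p.coeff 0 : ℤ) : K) = 0 := by
    have h3 := congrArg (aeval z) (Polynomial.divX_mul_X_add p)
    rw [hz, map_add, map_mul, aeval_X, aeval_C] at h3
    simpa using h3
  have h4 : IsIntegral ℤ (aeval z p.divX) := by
    have h3 : Algebra.adjoin ℤ {z} ≤ integralClosure ℤ K :=
      Algebra.adjoin_le (Set.singleton_subset_iff.2 h1)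
    exact h3 (aeval_mem_adjoin_singleton ℤ z)
  have hz0 : z ≠ 0 := by
    intro h5
    rw [h5, mul_zero, zero_add] at h2
    rcases h0 with h0 | h0
    · rw [h0] at h2; simp at h2
    · rw [h0] at h2; simp at h2
  refine ⟨h1, ?_, hz0⟩
  rcases h0 with h0 | h0
  · have h5 : z⁻¹ = -aeval z p.divX := by
      rw [h0] at h2
      field_simp
      push_cast at h2
      linear_combination h2
    rw [h5]; exact h4.neg
  · have h5 : z⁻¹ = aeval z p.divX := by
      rw [h0] at h2
      field_simp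
      push_cast at h2
      linear_combination -h2
    rw [h5]; exact h4

lemma rat_unit {c : ℚ} (h1 : IsIntegral ℤ (c : ℂ)) (h2 : IsIntegral ℤ ((c : ℂ)⁻¹)) (h0 : c ≠ 0) :
    c = 1 ∨ c = -1 := by
  have e1 : IsIntegral ℤ c := by
    have : IsIntegral ℤ (algebraMap ℚ ℂ c) := by simpa using h1
    exact (isIntegral_algebraMap_iff (algebraMap ℚ ℂ).injective).1 this
  have e2 : IsIntegral ℤ c⁻¹ := by
    have : IsIntegral ℤ (algebraMap ℚ ℂ c⁻¹) := by simpa using h2
    exact (isIntegral_algebraMap_iff (algebraMap ℚ ℂ).injective).1 this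
  obtain ⟨k, hk⟩ := IsIntegrallyClosed.isIntegral_iff.1 e1
  obtain ⟨l, hl⟩ := IsIntegrallyClosed.isIntegral_iff.1 e2
  have hk' : (k : ℚ) = c := by simpa using hk
  have hl' : (l : ℚ) = c⁻¹ := by simpa using hl
  have h3 : (k : ℚ) * l = 1 := by rw [hk', hl']; field_simp
  have h4 : k * l = 1 := by exact_mod_cast h3
  rcases Int.eq_one_or_neg_one_of_mul_eq_one h4 with h5 | h5
  · left; rw [← hk', h5]; simp
  · right; rw [← hk', h5]; simp

/-- a power of an Anosov map has no rational eigenvalue -/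
lemma no_rat {A : Type} [AddCommGroup A] [Module ℚ A] [FiniteDimensional ℚ A] {f : A →ₗ[ℚ] A}
    {p : Polynomial ℤ} (h : An f p) {m : ℕ} (hm : 0 < m) (c : ℚ) :
    Function.Injective (f ^ m - algebraMap ℚ (Module.End ℚ A) c) := by
  obtain ⟨hp, h0, hz⟩ := h
  have hmon : p.Monic := by
    apply Polynomial.monic_of_injective (Int.castRingHom ℚ).injective_int
    rw [hp]; exact LinearMap.charpoly_monic f
  by_contra hinj
  have hnc : ¬ IsCoprime (LinearMap.charpoly f) (X ^ m - C c) := by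
    rintro ⟨a, b, hab⟩
    apply hinj
    have h1 := congrArg (aeval f) hab
    rw [map_add, map_mul, map_mul, LinearMap.aeval_self_charpoly, mul_zero, zero_add, map_sub,
      map_pow, aeval_X, aeval_C, map_one] at h1
    intro x y hxy
    have h2 : ∀ x, (aeval f b) ((f ^ m - algebraMap ℚ (Module.End ℚ A) c) x) = x := fun x => by
      rw [← Module.End.mul_apply, h1, Module.End.one_apply]
    rw [← h2 x, ← h2 y, hxy]
  replace hnc := mt (Polynomial.isCoprime_iff_aeval_ne_zero_of_isAlgClosed ℚ ℂ _ _).2 hnc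
  push Not at hnc
  obtain ⟨z, hz1, hz2⟩ := hnc
  have hzp : aeval z p = 0 := by
    rw [← hp] at hz1
    have : aeval z (p.map (Int.castRingHom ℚ)) = aeval z p := by
      rw [← algebraMap_int_eq, aeval_map_algebraMap]
    rw [this] at hz1; exact hz1
  have hzm : z ^ m = (c : ℂ) := by
    rw [map_sub, map_pow, aeval_X, aeval_C, sub_eq_zero] at hz2
    simpa using hz2
  obtain ⟨i1, i2, i3⟩ := integral_unit hmon h0 hzp
  have hc0 : c ≠ 0 := by
    intro h4
    rw [h4] at hzm
    have := pow_ne_zero m i3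
    rw [hzm] at this; simp at this
  have hc : c = 1 ∨ c = -1 := by
    refine rat_unit ?_ ?_ hc0
    · rw [← hzm]; exact i1.pow m
    · rw [← hzm, ← inv_pow]; exact i2.pow m
  have hn : ‖z‖ ^ m = 1 := by
    rw [← norm_pow, hzm]
    rcases hc with h4 | h4 <;> rw [h4] <;> simp
  refine hz z ?_ ((pow_eq_one_iff_of_nonneg (norm_nonneg z) hm.ne').1 hn)
  rw [Polynomial.IsRoot, Polynomial.eval_map]
  have : aeval z p = eval₂ (Int.castRingHom ℂ) z p := by
    rw [aeval_def]; rfl
  rw [← this]; exact hzp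

lemma not_inj {F A : Type} [Field F] [AddCommGroup A] [Module F A] [FiniteDimensional F A]
    (h : A →ₗ[F] A) (B : Submodule F A) (hB : ∀ x ∈ B, h x ∈ B) {v : A} (hv : v ∉ B)
    (hv' : h v ∈ B) : ¬ Function.Injective h := by
  intro hinj
  have h1 : Function.Injective (h.restrict hB) := by
    intro x y hxy
    apply Subtype.ext
    apply hinj
    exact congrArg Subtype.val hxy
  have h2 := LinearMap.injective_iff_surjective.1 h1
  obtain ⟨w, hw⟩ := h2 ⟨h v, hv'⟩
  have h3 : h w.1 = h v := congrArg Subtype.val hw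
  rw [← hinj h3] at hv
  exact hv w.2

variable {n : ℕ} {G : SimpleGraph (Fin n)} [DecidableRel G.Adj]
  {A : Type} [LieRing A] [LieAlgebra ℚ A] [FiniteDimensional ℚ A]
  {b : Module.Basis (Fin n ⊕ G.edgeSet) ℚ A}

lemma b_mem_US {s t : Fin n} (h : Coh G s t) : b (Sum.inl t) ∈ US b s := by
  intro w hw
  rw [vc_inl] at hw
  by_cases h4 : w = t
  · rw [h4]; exact Or.inr h
  · rw [if_neg h4] at hw; exact absurd rfl hw

lemma pow_coe (f : A ≃ₗ[ℚ] A) (m : ℕ) (x : A) : (f.toLinearMap ^ m) x = (f ^ m) x := by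
  induction m generalizing x with
  | zero => simp
  | succ m ih =>
    rw [pow_succ, pow_succ, Module.End.mul_apply, LinearEquiv.mul_apply, ih]
    rfl

/-- classes have at least two elements -/
lemma class_ge_two (h : GB b) {f : A ≃ₗ[ℚ] A} (hf : IsA f) {p : Polynomial ℤ}
    (hp : An f.toLinearMap p) (s : Fin n) : ∃ t, t ≠ s ∧ Coh G s t := by
  by_contra hcon
  push Not at hcon
  obtain ⟨m, hm, hU⟩ := exists_pow h hf s
  set g := f ^ m with hg
  set c := vc b s (g (b (Sum.inl s))) with hc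
  refine not_inj (f.toLinearMap ^ m - algebraMap ℚ (Module.End ℚ A) c)
    (VS b (fun t => G.degree t < G.degree s)) ?_ (v := b (Sum.inl s)) ?_ ?_ (no_rat hp hm c)
  · intro x hx
    rw [LinearMap.sub_apply, pow_coe, Module.algebraMap_end_apply]
    exact Submodule.sub_mem _ (map_low h (hf.pow m) _ hx) (Submodule.smul_mem _ _ hx)
  · intro hmem
    exact lt_irrefl _ (hmem s (by rw [vc_inl, if_pos rfl]; exact one_ne_zero))
  · rw [LinearMap.sub_apply, pow_coe, Module.algebraMap_end_apply]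
    intro t ht
    rw [map_sub, map_smul] at ht
    by_cases hts : t = s
    · subst hts
      rw [vc_inl, if_pos rfl, smul_eq_mul, mul_one, ← hg, ← hc, sub_self] at ht
      exact absurd rfl ht
    · rw [vc_inl, if_neg hts, smul_zero, sub_zero] at ht
      rcases hU _ (b_mem_US (Coh.refl s)) t ht with h1 | h1
      · exact h1
      · exact absurd h1 (hcon t hts)

/-- span of edges with an end of small degree -/
def CS (b : Module.Basis (Fin n ⊕ G.edgeSet) ℚ A) (k : ℕ) : Submodule ℚ A where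
  carrier := {w | (∀ x, vc b x w = 0) ∧
    ∀ e : G.edgeSet, ec b e w ≠ 0 → ∃ x ∈ e.1, G.degree x < k}
  add_mem' := by
    rintro v w ⟨h1, h2⟩ ⟨h3, h4⟩
    refine ⟨fun x => by rw [map_add, h1, h3, add_zero], fun e he => ?_⟩
    by_cases h5 : ec b e v = 0
    · exact h4 e fun h6 => he (by rw [map_add, h5, h6, add_zero])
    · exact h2 e h5
  zero_mem' := ⟨fun _ => map_zero _, fun e he => absurd (map_zero _) he⟩
  smul_mem' := by
    rintro c w ⟨h3, h4⟩
    refine ⟨fun x => by rw [map_smul, h3, smul_zero], fun e he => ?_⟩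
    exact h4 e fun h6 => he (by rw [map_smul, h6, smul_zero])

lemma lie_mem_CS (h : GB b) {k : ℕ} {u v : A} (hu : u ∈ VS b (fun t => G.degree t < k)) :
    ⁅u, v⁆ ∈ CS b k := by
  refine ⟨fun x => h.vc_lie x u v, ?_⟩
  rintro ⟨e, he⟩ hne
  induction e using Sym2.ind with
  | _ x y =>
    rcases h.ec_lie_ne he hne with ⟨h1, -⟩ | ⟨h1, -⟩
    · exact ⟨x, by simp, hu x h1⟩
    · exact ⟨y, by simp, hu y h1⟩

lemma lie_mem_CS' (h : GB b) {k : ℕ} {u v : A} (hu : u ∈ VS b (fun t => G.degree t < k)) :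
    ⁅v, u⁆ ∈ CS b k := by
  rw [← lie_skew]; exact Submodule.neg_mem _ (lie_mem_CS h hu)

lemma b_mem_low {k : ℕ} {x : Fin n} (hx : G.degree x < k) :
    b (Sum.inl x) ∈ VS b (fun t => G.degree t < k) := by
  intro w hw
  rw [vc_inl] at hw
  by_cases h4 : w = x
  · rw [h4]; exact hx
  · rw [if_neg h4] at hw; exact absurd rfl hw

lemma map_CS (h : GB b) {g : A ≃ₗ[ℚ] A} (hg : IsA g) {k : ℕ} {w : A} (hw : w ∈ CS b k) :
    g w ∈ CS b k := by
  classical
  rw [expand b w, map_add, map_sum, map_sum]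
  refine Submodule.add_mem _ (Submodule.sum_mem _ fun t _ => ?_)
    (Submodule.sum_mem _ fun e _ => ?_)
  · rw [hw.1, zero_smul, map_zero]; exact Submodule.zero_mem _
  · by_cases he : ec b e w = 0
    · rw [he, zero_smul, map_zero]; exact Submodule.zero_mem _
    · rw [map_smul]
      refine Submodule.smul_mem _ _ ?_
      obtain ⟨x, hx, hdx⟩ := hw.2 e he
      obtain ⟨i, j, hij, -, he2, hb⟩ := exists_lie h e
      rw [hb, hg]
      rw [he2] at hx
      have hx' : x = i ∨ x = j := by simpa using hx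
      rcases hx' with rfl | rfl
      · exact lie_mem_CS h (map_low h hg _ (b_mem_low hdx))
      · exact lie_mem_CS' h (map_low h hg _ (b_mem_low hdx))

/-- two adjacent coherent vertices are coherent to a third one -/
lemma clique_ge_three (h : GB b) {f : A ≃ₗ[ℚ] A} (hf : IsA f) {p : Polynomial ℤ}
    (hp : An f.toLinearMap p) {s t : Fin n} (hst : G.Adj s t) (hco : Coh G s t) :
    ∃ u, u ≠ s ∧ u ≠ t ∧ Coh G s u := by
  by_contra hcon
  push Not at hcon
  obtain ⟨m, hm, hU⟩ := exists_pow h hf s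
  set g := f ^ m with hg
  have hgA : IsA g := hf.pow m
  have hdt : G.degree t = G.degree s := hco.symm.degree
  have key : ∀ v ∈ US b s, ∃ r ∈ VS b (fun t => G.degree t < G.degree s),
      v = vc b s v • b (Sum.inl s) + vc b t v • b (Sum.inl t) + r := by
    intro v hv
    refine ⟨v - (vc b s v • b (Sum.inl s) + vc b t v • b (Sum.inl t)), ?_, by abel⟩
    intro x hx
    rw [map_sub, map_add, map_smul, map_smul, vc_inl, vc_inl] at hx
    by_cases h1 : x = s
    · subst h1
      rw [if_pos rfl, if_neg hst.ne] at hx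
      simp at hx
    · by_cases h2 : x = t
      · subst h2
        rw [if_neg h1, if_pos rfl] at hx
        simp at hx
      · rw [if_neg h1, if_neg h2] at hx
        simp only [smul_zero, add_zero, sub_zero] at hx
        rcases hv x hx with h3 | h3
        · exact h3
        · exact absurd h3 (hcon x h1 h2)
  obtain ⟨r1, hr1, e1⟩ := key _ (hU _ (b_mem_US (Coh.refl s)))
  obtain ⟨r2, hr2, e2⟩ := key _ (hU _ (b_mem_US hco))
  set a11 := vc b s (g (b (Sum.inl s)))
  set a12 := vc b t (g (b (Sum.inl s)))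
  set a21 := vc b s (g (b (Sum.inl t)))
  set a22 := vc b t (g (b (Sum.inl t)))
  set c := a11 * a22 - a12 * a21 with hc
  refine not_inj (f.toLinearMap ^ m - algebraMap ℚ (Module.End ℚ A) c)
    (CS b (G.degree s)) ?_ (v := ⁅b (Sum.inl s), b (Sum.inl t)⁆) ?_ ?_ (no_rat hp hm c)
  · intro x hx
    rw [LinearMap.sub_apply, pow_coe, Module.algebraMap_end_apply]
    exact Submodule.sub_mem _ (map_CS h hgA hx) (Submodule.smul_mem _ _ hx)
  · intro hmem
    obtain ⟨φ, hφ⟩ := h.exists_coord hst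
    have hne : ec b ⟨s(s, t), G.mem_edgeSet.mpr hst⟩ ⁅b (Sum.inl s), b (Sum.inl t)⁆ ≠ 0 := by
      rcases lt_or_gt_of_ne hst.ne with hlt | hlt
      · rw [h.ec_lie hst hlt, vc_inl, vc_inl, vc_inl, vc_inl, if_pos rfl, if_pos rfl,
          if_neg hst.ne, if_neg hst.ne']
        simp
      · have h3 : (⟨s(s, t), G.mem_edgeSet.mpr hst⟩ : G.edgeSet) =
            ⟨s(t, s), G.mem_edgeSet.mpr hst.symm⟩ := Subtype.ext Sym2.eq_swap
        rw [h3, h.ec_lie hst.symm hlt, vc_inl, vc_inl, vc_inl, vc_inl, if_pos rfl, if_pos rfl,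
          if_neg hst.ne, if_neg hst.ne']
        simp
    obtain ⟨x, hx, hdx⟩ := hmem.2 _ hne
    have hx' : x = s ∨ x = t := by simpa using hx
    rcases hx' with rfl | rfl
    · exact lt_irrefl _ hdx
    · rw [hdt] at hdx; exact lt_irrefl _ hdx
  · rw [LinearMap.sub_apply, pow_coe, Module.algebraMap_end_apply, ← hg, hgA]
    have h1 : ⁅g (b (Sum.inl s)), g (b (Sum.inl t))⁆ - c • ⁅b (Sum.inl s), b (Sum.inl t)⁆ =
        ⁅r1, g (b (Sum.inl t))⁆ +
          ⁅a11 • b (Sum.inl s) + a12 • b (Sum.inl t), r2⁆ := by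
      conv_lhs => rw [e1]
      rw [add_lie]
      conv_lhs => rw [e2]
      conv_rhs => rw [e2]
      have h2 : ⁅b (Sum.inl t), b (Sum.inl s)⁆ = -⁅b (Sum.inl s), b (Sum.inl t)⁆ :=
        (lie_skew _ _).symm
      simp only [lie_add, add_lie, lie_smul, smul_lie, lie_self, smul_zero, add_zero, zero_add,
        h2, smul_neg, hc]
      module
    rw [h1]
    exact Submodule.add_mem _ (lie_mem_CS h hr1) (lie_mem_CS' h hr2)

end

end Pool.Agent.H446R3.AG
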