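import Pool.Agent.H446R3.AG.Spec
import Pool.Agent.H446R3.AG.PartI

set_option autoImplicit false
set_option linter.unusedSectionVars false
open Topology Filter Polynomial
open scoped TensorProduct

namespace Pool.Agent.H446R3.AG

noncomputable section

lemma qp_eval {F : Type} [Field F] {m : ℕ} (hm : 1 ≤ m) (c z : F) :
    (qp m c).eval z = z ^ (m - 1) * (z - c) + 1 := by
  unfold qp
  rw [eval_add, eval_sub, eval_mul, eval_pow, eval_pow, eval_X, eval_C, eval_one]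
  have : z ^ m = z ^ (m - 1) * z := by rw [← pow_succ, Nat.sub_add_cancel hm]
  rw [this]; ring

lemma norm_root {m : ℕ} (hm : 1 ≤ m) {c : ℝ} {z : ℂ} (hz : (qp m (c : ℂ)).eval z = 0) :
    ‖z‖ ^ (m - 1) * ‖z - c‖ = 1 := by
  rw [qp_eval hm] at hz
  have h1 : z ^ (m - 1) * (z - c) = -1 := by linear_combination hz
  rw [← norm_pow, ← norm_mul, h1, norm_neg, norm_one]

lemma est_one {m : ℕ} (hm : 1 ≤ m) {c : ℝ} (hc : 2 < c) {z : ℂ}
    (hz : (qp m (c : ℂ)).eval z = 0) : ‖z‖ ≠ 1 := by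
  intro h1
  have h2 := norm_root hm hz
  rw [h1, one_pow, one_mul] at h2
  have h3 : ‖(c : ℂ)‖ ≤ ‖z‖ + ‖z - c‖ := by
    have := norm_sub_le z (z - c)
    rwa [sub_sub_cancel] at this
  rw [Complex.norm_real, Real.norm_eq_abs, abs_of_pos (by linarith)] at h3
  linarith

/-- key estimate with `‖α‖ > 1` -/
lemma est_aux {m m' : ℕ} (hm : 2 ≤ m) (hm' : 2 ≤ m') {c c' : ℝ} (hc : 4 ≤ c) (hc' : 4 ≤ c')
    (h1 : c' + 1 ≤ (c - 1) ^ 2) (h2 : m' = 2 → 1 ≤ |c - c'|) {α β : ℂ}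
    (hα : (qp m (c : ℂ)).eval α = 0) (hβ : (qp m' (c' : ℂ)).eval β = 0) (hA : 1 < ‖α‖)
    (hAB : ‖α‖ * ‖β‖ = 1) : False := by
  have ha := norm_root (by omega) hα
  have hb := norm_root (by omega) hβ
  set A := ‖α‖ with hAdef
  set B := ‖β‖ with hBdef
  have hA0 : 0 < A := by linarith
  have hB : B = 1 / A := by field_simp; linarith
  have hpow : A ≤ A ^ (m - 1) := by
    calc A = A ^ 1 := (pow_one A).symm
      _ ≤ A ^ (m - 1) := pow_le_pow_right₀ hA.le (by omega)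
  have hd : ‖α - c‖ ≤ 1 / A := by
    rw [le_div_iff₀ hA0]
    have h3 : ‖α - c‖ * A ≤ ‖α - c‖ * A ^ (m - 1) := mul_le_mul_of_nonneg_left hpow (norm_nonneg _)
    calc ‖α - c‖ * A ≤ ‖α - c‖ * A ^ (m - 1) := h3
      _ = 1 := by rw [mul_comm]; exact ha
  have hA1 : 1 / A < 1 := by rw [div_lt_one hA0]; exact hA
  have hAc : |A - c| ≤ ‖α - c‖ := by
    have h3 := abs_norm_sub_norm_le α (c : ℂ)
    rw [Complex.norm_real, Real.norm_eq_abs, abs_of_pos (by linarith : (0:ℝ) < c)] at h3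
    exact h3
  have hAge : c - 1 ≤ A := by
    have h3 := (abs_le.1 (hAc.trans (hd.trans hA1.le))).1
    linarith
  have hinv : 1 / A ≤ 1 / 3 := one_div_le_one_div_of_le (by norm_num) (by linarith)
  have hB' : B ≤ 1 / 3 := by rw [hB]; exact hinv
  have hbn : |B - c'| ≤ ‖β - c'‖ := by
    have h3 := abs_norm_sub_norm_le β (c' : ℂ)
    rw [Complex.norm_real, Real.norm_eq_abs, abs_of_pos (by linarith : (0:ℝ) < c')] at h3
    exact h3
  have hbn2 : ‖β - c'‖ ≤ c' + B := by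
    have h3 := norm_sub_le β (c' : ℂ)
    rw [Complex.norm_real, Real.norm_eq_abs, abs_of_pos (by linarith : (0:ℝ) < c')] at h3
    linarith
  have hbn3 : c' - B ≤ ‖β - c'‖ := by
    have h3 := (abs_le.1 hbn).1
    linarith
  have hbA : ‖β - c'‖ = A ^ (m' - 1) := by
    have h3 : A ^ (m' - 1) * B ^ (m' - 1) = 1 := by rw [← mul_pow, hAB, one_pow]
    calc ‖β - c'‖ = (A ^ (m' - 1) * B ^ (m' - 1)) * ‖β - c'‖ := by rw [h3, one_mul]
      _ = A ^ (m' - 1) * (B ^ (m' - 1) * ‖β - c'‖) := by ring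
      _ = A ^ (m' - 1) := by rw [hb, mul_one]
  rcases Nat.lt_or_ge m' 3 with h3 | h3
  · have hm2 : m' = 2 := by omega
    have h4 := h2 hm2
    rw [hm2] at hbA
    simp only [Nat.add_one_sub_one, pow_one] at hbA
    rw [hbA] at hbn2 hbn3
    have h5 : |A - c| ≤ 1 / 3 := hAc.trans (hd.trans hinv)
    have h6 := abs_le.1 h5
    have h7 : |c - c'| ≤ 2 / 3 := by
      rw [abs_le]; constructor <;> linarith [h6.1, h6.2]
    linarith
  · have h4 : A ^ 2 ≤ A ^ (m' - 1) := pow_le_pow_right₀ hA.le (by omega)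
    have h5 : (c - 1) ^ 2 ≤ A ^ 2 := pow_le_pow_left₀ (by linarith) hAge 2
    rw [hbA] at hbn2
    linarith

lemma est_two {m m' : ℕ} (hm : 2 ≤ m) (hm' : 2 ≤ m') {c c' : ℝ} (hc : 4 ≤ c) (hc' : 4 ≤ c')
    (h1 : c' + 1 ≤ (c - 1) ^ 2) (h1' : c + 1 ≤ (c' - 1) ^ 2)
    (h2 : m' = 2 → 1 ≤ |c - c'|) (h2' : m = 2 → 1 ≤ |c - c'|) {α β : ℂ}
    (hα : (qp m (c : ℂ)).eval α = 0) (hβ : (qp m' (c' : ℂ)).eval β = 0) : ‖α * β‖ ≠ 1 := by
  intro hab
  rw [norm_mul] at hab
  rcases lt_trichotomy ‖α‖ 1 with h | h | h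
  · have hB : 1 < ‖β‖ := by
      by_contra hcon
      push Not at hcon
      have h3 : ‖α‖ * ‖β‖ ≤ ‖α‖ := by
        calc ‖α‖ * ‖β‖ ≤ ‖α‖ * 1 := mul_le_mul_of_nonneg_left hcon (norm_nonneg _)
          _ = ‖α‖ := mul_one _
      linarith
    refine est_aux hm' hm hc' hc h1' (fun h3 => ?_) hβ hα hB (by rw [mul_comm]; exact hab)
    rw [abs_sub_comm]; exact h2' h3
  · exact est_one (by omega) (by linarith) hα h
  · exact est_aux hm hm' hc hc' h1 h2 hα hβ h hab

/-- roots are integral units -/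
lemma unit_root {K : Type} [Field K] [CharZero K] {m : ℕ} (hm : 2 ≤ m) {c z : K}
    (hc : IsIntegral ℤ c) (hz : (qp m c).eval z = 0) :
    IsIntegral ℤ z ∧ IsIntegral ℤ z⁻¹ ∧ z ≠ 0 := by
  have h1 : z ^ (m - 1) * (z - c) + 1 = 0 := by rw [← qp_eval (by omega)]; exact hz
  have hz0 : z ≠ 0 := by
    rintro rfl
    rw [zero_pow (by omega), zero_mul, zero_add] at h1
    exact one_ne_zero h1
  have hint : IsIntegral ℤ z := by
    let O := integralClosure ℤ K
    have h2 : IsIntegral O z := by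
      refine ⟨qp m (⟨c, hc⟩ : O), ?_, ?_⟩
      · unfold qp
        have h3 : (X ^ m - C (⟨c, hc⟩ : O) * X ^ (m - 1) + 1 : O[X]) =
            X ^ m + (-(C (⟨c, hc⟩ : O)) * X ^ (m - 1) + 1) := by ring
        rw [h3]
        refine monic_X_pow_add ?_
        refine lt_of_le_of_lt (degree_add_le _ _) ?_
        rw [max_lt_iff]
        constructor
        · rw [← C_neg]
          refine lt_of_le_of_lt (degree_C_mul_X_pow_le _ _) ?_
          exact_mod_cast (by omega : m - 1 < m)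
        · rw [degree_one]
          exact_mod_cast (by omega : 0 < m)
      · have h4 : eval₂ (algebraMap O K) z (qp m (⟨c, hc⟩ : O)) = (qp m c).eval z := by
          unfold qp
          simp only [eval₂_add, eval₂_sub, eval₂_mul, eval₂_pow, eval₂_X, eval₂_C, eval₂_one,
            eval_add, eval_sub, eval_mul, eval_pow, eval_X, eval_C, eval_one]
          rfl
        rw [h4]; exact hz
    exact isIntegral_trans (R := ℤ) (A := O) z h2
  refine ⟨hint, ?_, hz0⟩
  have h2 : z⁻¹ = z ^ (m - 2) * (c - z) := by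
    have h3 : z ^ (m - 1) = z * z ^ (m - 2) := by rw [← pow_succ']; congr 1; omega
    rw [h3] at h1
    field_simp
    linear_combination h1
  rw [h2]
  exact (hint.pow _).mul (hc.sub hint)

lemma rat_unit' {K : Type} [Field K] [CharZero K] [Algebra ℚ K] {c : ℚ}
    (h1 : IsIntegral ℤ (algebraMap ℚ K c)) (h2 : IsIntegral ℤ ((algebraMap ℚ K c)⁻¹))
    (h0 : c ≠ 0) : c = 1 ∨ c = -1 := by
  have e1 : IsIntegral ℤ c := (isIntegral_algebraMap_iff (algebraMap ℚ K).injective).1 h1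
  have e2 : IsIntegral ℤ c⁻¹ := by
    rw [← map_inv₀] at h2
    exact (isIntegral_algebraMap_iff (algebraMap ℚ K).injective).1 h2
  obtain ⟨k, hk⟩ := IsIntegrallyClosed.isIntegral_iff.1 e1
  obtain ⟨l, hl⟩ := IsIntegrallyClosed.isIntegral_iff.1 e2
  have hk' : (k : ℚ) = c := by simpa using hk
  have hl' : (l : ℚ) = c⁻¹ := by simpa using hl
  have h3 : (k : ℚ) * l = 1 := by rw [hk', hl']; field_simp
  have h4 : k * l = 1 := by exact_mod_cast h3
  rcases Int.eq_one_or_neg_one_of_mul_eq_one h4 with h5 | h5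
  · left; rw [← hk', h5]; simp
  · right; rw [← hk', h5]; simp

/-- a rational polynomial with integral unit roots -/
lemma int_poly {P : ℚ[X]} (hP : P.Monic) (j : QA →+* ℂ)
    (hroot : ∀ z : QA, (P.map (algebraMap ℚ QA)).IsRoot z →
      IsIntegral ℤ z ∧ IsIntegral ℤ z⁻¹ ∧ z ≠ 0 ∧ ‖j z‖ ≠ 1) :
    ∃ q : ℤ[X], q.map (Int.castRingHom ℚ) = P ∧ (q.coeff 0 = 1 ∨ q.coeff 0 = -1) ∧
      ∀ z : ℂ, (q.map (Int.castRingHom ℂ)).IsRoot z → ‖z‖ ≠ 1 := by
  set PQ := P.map (algebraMap ℚ QA) with hPQ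
  have hmon : PQ.Monic := hP.map _
  have hsp : PQ = (PQ.roots.map fun a => X - C a).prod :=
    (IsAlgClosed.splits PQ).eq_prod_roots_of_monic hmon
  have hr : ∀ a ∈ PQ.roots, IsIntegral ℤ a ∧ IsIntegral ℤ a⁻¹ ∧ a ≠ 0 ∧ ‖j a‖ ≠ 1 := fun a ha =>
    hroot a (isRoot_of_mem_roots ha)
  let O := integralClosure ℤ QA
  have hlift : PQ ∈ lifts (algebraMap O QA) := by
    rw [hsp]
    refine multiset_prod_mem _ fun Y hY => ?_
    obtain ⟨a, ha, rfl⟩ := Multiset.mem_map.1 hY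
    rw [mem_lifts]
    exact ⟨X - C (⟨a, (hr a ha).1⟩ : O), by
      rw [Polynomial.map_sub, map_X, map_C]; rfl⟩
  have hcoef : ∀ i, ∃ k : ℤ, (k : ℚ) = P.coeff i := by
    intro i
    obtain ⟨y, hy⟩ := (lifts_iff_coeff_lifts PQ).1 hlift i
    have h1 : IsIntegral ℤ (algebraMap ℚ QA (P.coeff i)) := by
      rw [← coeff_map, ← hPQ, ← hy]; exact y.2
    have h2 : IsIntegral ℤ (P.coeff i) :=
      (isIntegral_algebraMap_iff (algebraMap ℚ QA).injective).1 h1
    obtain ⟨k, hk⟩ := IsIntegrallyClosed.isIntegral_iff.1 h2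
    exact ⟨k, by simpa using hk⟩
  have hq : P ∈ lifts (Int.castRingHom ℚ) := by
    rw [lifts_iff_coeff_lifts]
    intro i
    obtain ⟨k, hk⟩ := hcoef i
    exact ⟨k, by simpa using hk⟩
  obtain ⟨q, hq⟩ := (mem_lifts P).1 hq
  refine ⟨q, hq, ?_, ?_⟩
  · have h0 : algebraMap ℚ QA (P.coeff 0) = (PQ.roots.map fun a => -a).prod := by
      rw [← coeff_map, ← hPQ, coeff_zero_eq_eval_zero]
      conv_lhs => rw [hsp]
      rw [eval_multiset_prod, Multiset.map_map]
      congr 1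
      refine Multiset.map_congr rfl fun a _ => ?_
      simp
    have hne : P.coeff 0 ≠ 0 := by
      intro h1
      rw [h1, map_zero] at h0
      have h2 := (Multiset.prod_eq_zero_iff).1 h0.symm
      obtain ⟨a, ha, ha0⟩ := Multiset.mem_map.1 h2
      exact (hr a ha).2.2.1 (neg_eq_zero.1 ha0)
    have hi1 : IsIntegral ℤ (algebraMap ℚ QA (P.coeff 0)) := by
      rw [h0]
      have : (PQ.roots.map fun a => -a).prod ∈ O := by
        refine multiset_prod_mem _ fun Y hY => ?_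
        obtain ⟨a, ha, rfl⟩ := Multiset.mem_map.1 hY
        exact (hr a ha).1.neg
      exact this
    have hi2 : IsIntegral ℤ ((algebraMap ℚ QA (P.coeff 0))⁻¹) := by
      rw [h0, ← Multiset.prod_map_inv', Multiset.map_map]
      have : (PQ.roots.map ((fun a => a⁻¹) ∘ fun a => -a)).prod ∈ O := by
        refine multiset_prod_mem _ fun Y hY => ?_
        obtain ⟨a, ha, rfl⟩ := Multiset.mem_map.1 hY
        change IsIntegral ℤ (-a)⁻¹
        rw [inv_neg]
        exact (hr a ha).2.1.neg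
      exact this
    have h3 := rat_unit' hi1 hi2 hne
    have h4 : ((q.coeff 0 : ℤ) : ℚ) = P.coeff 0 := by
      rw [← hq, coeff_map]; simp
    rcases h3 with h3 | h3
    · left; rw [h3] at h4; exact_mod_cast h4
    · right; rw [h3] at h4; exact_mod_cast h4
  · intro z hz
    have h1 : (Int.castRingHom ℂ) = (j.comp (algebraMap ℚ QA)).comp (Int.castRingHom ℚ) :=
      RingHom.ext_int _ _
    have h2 : q.map (Int.castRingHom ℂ) = PQ.map j := by
      rw [h1, ← Polynomial.map_map, hq, ← Polynomial.map_map]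
    rw [h2, hsp, Polynomial.map_multiset_prod, Multiset.map_map, IsRoot, eval_multiset_prod,
      Multiset.map_map] at hz
    have h3 := (Multiset.prod_eq_zero_iff).1 hz
    obtain ⟨a, ha, ha0⟩ := Multiset.mem_map.1 h3
    simp only [Function.comp_apply, Polynomial.map_sub, map_X, map_C, eval_sub, eval_X,
      eval_C, sub_eq_zero] at ha0
    rw [ha0]
    exact (hr a ha).2.2.2

end

end Pool.Agent.H446R3.AG
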