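import Pool.Agent.H446R3.AG.Wt

set_option autoImplicit false
set_option linter.unusedSectionVars false
open Topology Filter Polynomial
open scoped TensorProduct

namespace Pool.Agent.H446R3.AG

noncomputable section

/-- roots of rational polynomials lift to the algebraic closure -/
lemma lift_root {P : ℚ[X]} (hP : P.Monic) (j : QA →+* ℂ) {y : ℂ} (hy : aeval y P = 0) :
    ∃ z : QA, j z = y ∧ (P.map (algebraMap ℚ QA)).IsRoot z := by
  set PQ := P.map (algebraMap ℚ QA) with hPQ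
  have hmon : PQ.Monic := hP.map _
  have hsp : PQ = (PQ.roots.map fun a => X - C a).prod :=
    (IsAlgClosed.splits PQ).eq_prod_roots_of_monic hmon
  have h1 : (PQ.map j).eval y = 0 := by
    rw [hPQ, Polynomial.map_map]
    have h2 : j.comp (algebraMap ℚ QA) = algebraMap ℚ ℂ := RingHom.ext_rat _ _
    rw [h2, eval_map_algebraMap]; exact hy
  rw [hsp, Polynomial.map_multiset_prod, Multiset.map_map, eval_multiset_prod,
    Multiset.map_map] at h1
  obtain ⟨a, ha, ha0⟩ := Multiset.mem_map.1 ((Multiset.prod_eq_zero_iff).1 h1)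
  simp only [Function.comp_apply, Polynomial.map_sub, map_X, map_C, eval_sub, eval_X,
    eval_C, sub_eq_zero] at ha0
  exact ⟨a, ha0.symm, isRoot_of_mem_roots ha⟩

variable {n : ℕ} {G : SimpleGraph (Fin n)} [Fintype G.edgeSet]
  {M : Type} [LieRing M] [LieAlgebra ℚ M] [FiniteDimensional ℚ M]

/-- a rational vector with all coordinates nonzero -/
lemma exists_generic {ι : Type} [Fintype ι] (e : Module.Basis ι QA (QA ⊗[ℚ] M)) :
    ∃ v : M, ∀ i, e.repr ((1 : QA) ⊗ₜ[ℚ] v) i ≠ 0 := by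
  classical
  let p : ι → Submodule ℚ M := fun i =>
    { carrier := {m | e.repr ((1 : QA) ⊗ₜ[ℚ] m) i = 0}
      add_mem' := by
        intro x y hx hy
        change e.repr _ i = 0
        rw [TensorProduct.tmul_add, map_add, Finsupp.add_apply]
        have h1 : e.repr ((1 : QA) ⊗ₜ[ℚ] x) i = 0 := hx
        have h2 : e.repr ((1 : QA) ⊗ₜ[ℚ] y) i = 0 := hy
        rw [h1, h2, add_zero]
      zero_mem' := by
        change e.repr _ i = 0
        rw [TensorProduct.tmul_zero, map_zero]; rfl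
      smul_mem' := by
        intro c x hx
        change e.repr _ i = 0
        have h1 : e.repr ((1 : QA) ⊗ₜ[ℚ] x) i = 0 := hx
        have h2 : (1 : QA) ⊗ₜ[ℚ] (c • x) = (algebraMap ℚ QA c) • ((1 : QA) ⊗ₜ[ℚ] x) := by
          rw [TensorProduct.tmul_smul, algebraMap_smul]
        rw [h2, map_smul, Finsupp.smul_apply, h1, smul_zero] }
  have htop : ∀ i, p i ≠ ⊤ := by
    intro i hi
    have h1 : ∀ x : QA ⊗[ℚ] M, e.repr x i = 0 := by
      intro x
      induction x using TensorProduct.induction_on with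
      | zero => rw [map_zero]; rfl
      | add x y hx hy => rw [map_add, Finsupp.add_apply, hx, hy, add_zero]
      | tmul r u =>
        have h2 : r ⊗ₜ[ℚ] u = r • ((1 : QA) ⊗ₜ[ℚ] u) := by
          rw [TensorProduct.smul_tmul', smul_eq_mul, mul_one]
        have h3 : u ∈ p i := by rw [hi]; trivial
        have h4 : e.repr ((1 : QA) ⊗ₜ[ℚ] u) i = 0 := h3
        rw [h2, map_smul, Finsupp.smul_apply, h4, smul_zero]
    have h2 := h1 (e i)
    rw [Module.Basis.repr_self, Finsupp.single_eq_same] at h2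
    exact one_ne_zero h2
  have hcov := Subspace.biUnion_ne_univ_of_top_notMem (s := Finset.univ.image p) (by
    intro h
    obtain ⟨i, -, hi⟩ := Finset.mem_image.1 h
    exact htop i hi)
  rw [Set.ne_univ_iff_exists_notMem] at hcov
  obtain ⟨v, hv⟩ := hcov
  refine ⟨v, fun i hi => hv ?_⟩
  simp only [Set.mem_iUnion]
  exact ⟨p i, Finset.mem_image.2 ⟨i, Finset.mem_univ _, rfl⟩, hi⟩

/-- the main theorem in terms of graph bases -/
theorem main {N : Type} [LieRing N] [LieAlgebra ℚ N] [FiniteDimensional ℚ N]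
    {b : Module.Basis (Fin n ⊕ G.edgeSet) ℚ N} (hb : GB b)
    (hc1 : ∀ s, ∃ t, t ≠ s ∧ Coh G s t)
    (hc2 : ∀ s t, G.Adj s t → Coh G s t → ∃ u, u ≠ s ∧ u ≠ t ∧ Coh G s u)
    (φ : (ℝ ⊗[ℚ] M) ≃ₗ⁅ℝ⁆ (ℝ ⊗[ℚ] N)) :
    ∃ g : M ≃ₗ⁅ℚ⁆ M, ∃ q : Polynomial ℤ,
          q.map (Int.castRingHom ℚ) = LinearMap.charpoly g.toLinearEquiv.toLinearMap ∧
          (q.coeff 0 = 1 ∨ q.coeff 0 = -1) ∧
          ∀ z : ℂ, (q.map (Int.castRingHom ℂ)).IsRoot z → ‖z‖ ≠ 1 := by
  classical
  -- transport the diagonal derivation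
  let DR : ℝ ⊗[ℚ] N →ₗ[ℝ] ℝ ⊗[ℚ] N := (DN b).baseChange ℝ
  have hDR : IsD DR := (DN_isD hb).baseChange ℝ
  let D₀ : ℝ ⊗[ℚ] M →ₗ[ℝ] ℝ ⊗[ℚ] M := φ.symm.toLinearEquiv.conj DR
  have hD₀a : ∀ x, D₀ x = φ.symm (DR (φ x)) := fun x => rfl
  have hD₀ : IsD D₀ := by
    intro x y
    rw [hD₀a, hD₀a, hD₀a, LieEquiv.map_lie, hDR, map_add, LieEquiv.map_lie, LieEquiv.map_lie,
      LieEquiv.symm_apply_apply, LieEquiv.symm_apply_apply]
  have hcp : ∀ y : ℝ, (LinearMap.charpoly D₀).eval y = ∏ k, (y - (ww G k : ℝ)) := by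
    intro y
    have h1 : LinearMap.charpoly D₀ = LinearMap.charpoly DR := LinearEquiv.charpoly_conj _ _
    rw [h1, LinearMap.charpoly_baseChange, DN_charpoly, Polynomial.map_prod, eval_prod]
    refine Finset.prod_congr rfl fun k _ => ?_
    simp
  set η : ℝ := 1 / (4 * ((n : ℝ) + 1)) with hη
  have hη0 : 0 < η := by positivity
  have hη1 : η ≤ 1 / 4 := by
    rw [hη]
    apply one_div_le_one_div_of_le (by norm_num)
    have : (0:ℝ) ≤ n := Nat.cast_nonneg n
    linarith
  obtain ⟨D, hD, y, hy⟩ := exists_rat_der hD₀ (ww G) ww_inj hcp hη0 (by linarith)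
  -- relations between the approximate eigenvalues
  have hrel : ∀ i j k, y i + y j = y k → ww G i + ww G j = ww G k := by
    intro i j k h
    have h1 := abs_lt.1 (hy i).1
    have h2 := abs_lt.1 (hy j).1
    have h3 := abs_lt.1 (hy k).1
    have h4 : |((ww G i + ww G j - ww G k : ℤ) : ℝ)| < 1 := by
      push_cast
      rw [abs_lt]; constructor <;> linarith [h1.1, h1.2, h2.1, h2.2, h3.1, h3.2]
    have h5 : |(ww G i + ww G j - ww G k)| < 1 := by exact_mod_cast h4
    have h6 := Int.abs_lt_one_iff.1 h5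
    omega
  have hyinj : ∀ i j, y i = y j → i = j := by
    intro i j h
    apply ww_inj
    have h1 := abs_lt.1 (hy i).1
    have h2 := abs_lt.1 (hy j).1
    have h4 : |((ww G i - ww G j : ℤ) : ℝ)| < 1 := by
      push_cast
      rw [abs_lt]; constructor <;> linarith [h1.1, h1.2, h2.1, h2.2]
    have h5 : |(ww G i - ww G j)| < 1 := by exact_mod_cast h4
    have h6 := Int.abs_lt_one_iff.1 h5
    omega
  -- lift to algebraic numbers
  have halg := algQA
  let j : QA →ₐ[ℚ] ℂ := IsAlgClosed.lift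
  have hjr : ∀ i, ∃ z : QA, j z = (y i : ℂ) ∧
      ((LinearMap.charpoly D).map (algebraMap ℚ QA)).IsRoot z := by
    intro i
    refine lift_root (LinearMap.charpoly_monic D) (j : QA →+* ℂ) ?_
    have h1 := (hy i).2
    have h2 : aeval ((y i : ℝ) : ℂ) (LinearMap.charpoly D) =
        ((aeval (y i) (LinearMap.charpoly D) : ℝ) : ℂ) := by
      have := Polynomial.aeval_algebraMap_apply ℂ (y i) (LinearMap.charpoly D)
      simpa using this
    rw [h2, h1]; simp
  choose δ hδj hδr using hjr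
  have hδinj : Function.Injective δ := by
    intro i k hik
    apply hyinj
    have h1 : ((y i : ℝ) : ℂ) = y k := by rw [← hδj, ← hδj, hik]
    exact_mod_cast h1
  let DQ : QA ⊗[ℚ] M →ₗ[QA] QA ⊗[ℚ] M := D.baseChange QA
  have hev : ∀ i, ∃ v, Module.End.HasEigenvector DQ (δ i) v := by
    intro i
    have h1 : Module.End.HasEigenvalue DQ (δ i) := by
      rw [Module.End.hasEigenvalue_iff_isRoot_charpoly, LinearMap.charpoly_baseChange]
      exact hδr i
    exact h1.exists_hasEigenvector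
  choose v₀ hv₀ using hev
  have hli : LinearIndependent QA v₀ :=
    Module.End.eigenvectors_linearIndependent' DQ δ hδinj v₀ hv₀
  have hfr : Module.finrank ℚ M = Module.finrank ℚ N := by
    rw [← Module.finrank_baseChange (R := ℝ) (S := ℚ) (M' := M),
      ← Module.finrank_baseChange (R := ℝ) (S := ℚ) (M' := N)]
    exact φ.toLinearEquiv.finrank_eq
  have hcard : Fintype.card (Fin n ⊕ G.edgeSet) = Module.finrank QA (QA ⊗[ℚ] M) := by
    rw [Module.finrank_baseChange, hfr, Module.finrank_eq_card_basis b]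
  let e₀ : Module.Basis (Fin n ⊕ G.edgeSet) QA (QA ⊗[ℚ] M) :=
    Module.Basis.mk hli (hli.span_eq_top_of_card_eq_finrank' hcard).ge
  have he₀ : ∀ i, e₀ i = v₀ i := fun i => Module.Basis.mk_apply _ _ i
  obtain ⟨v, hv⟩ := exists_generic e₀
  let e : Module.Basis (Fin n ⊕ G.edgeSet) QA (QA ⊗[ℚ] M) :=
    e₀.isUnitSMul (w := fun i => e₀.repr ((1 : QA) ⊗ₜ[ℚ] v) i) (fun i => (hv i).isUnit)
  have he : ∀ i, e i = e₀.repr ((1 : QA) ⊗ₜ[ℚ] v) i • e₀ i := fun i =>
    Module.Basis.isUnitSMul_apply _ i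
  have hve : (1 : QA) ⊗ₜ[ℚ] v = ∑ i, e i := by
    conv_lhs => rw [← e₀.sum_repr ((1 : QA) ⊗ₜ[ℚ] v)]
    exact Finset.sum_congr rfl fun i _ => (he i).symm
  have hder : Module.finrank QA (der QA (QA ⊗[ℚ] M)) = Fintype.card G.edgeSet := by
    rw [finrank_der_baseChange, ← finrank_der_baseChange (M := M) ℝ, finrank_der_equiv φ,
      finrank_der_baseChange, finrank_der_GB hb]
  have hδrel : ∀ i k l, δ i + δ k = δ l → ww G i + ww G k = ww G l := by
    intro i k l h
    apply hrel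
    have h1 := congrArg j h
    rw [map_add, hδj, hδj, hδj] at h1
    exact_mod_cast h1
  have hEB : EB DQ e δ :=
    { inj := hδinj
      eig := fun i => by
        rw [he, map_smul, he₀, (hv₀ i).apply_eq_smul, smul_comm]
      isD := hD.baseChange QA
      cen := fun x k l h => ww_cen x k l (hδrel _ _ _ h)
      adj := fun s t k hst h => ww_adj s t k hst (hδrel _ _ _ h)
      fin := hder }
  -- sums over classes
  have hclose : ∀ S : Finset (Fin n), |∑ u ∈ S, y (Sum.inl u) - ((∑ u ∈ S, wv n u : ℤ) : ℝ)| ≤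
      1 / 4 := by
    intro S
    push_cast
    rw [← Finset.sum_sub_distrib]
    refine (Finset.abs_sum_le_sum_abs _ _).trans ?_
    have h1 : ∑ u ∈ S, |y (Sum.inl u) - (wv n u : ℝ)| ≤ ∑ _u ∈ S, η :=
      Finset.sum_le_sum fun u _ => (hy (Sum.inl u)).1.le
    refine h1.trans ?_
    rw [Finset.sum_const, nsmul_eq_mul]
    have h2 : (S.card : ℝ) ≤ n := by
      have : S.card ≤ n := by simpa using Finset.card_le_univ S
      exact_mod_cast this
    calc (S.card : ℝ) * η ≤ (n + 1) * η := by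
          apply mul_le_mul_of_nonneg_right _ hη0.le
          linarith
      _ = 1 / 4 := by rw [hη]; field_simp
  refine build hEB hve (j : QA →+* ℂ) (fun s => y (Sum.inl s)) (fun s => hδj _) ?_ ?_ hc1 hc2
  · intro s
    have h1 := abs_le.1 (hclose (cl G s))
    have h2 : (1 : ℤ) ≤ ∑ u ∈ cl G s, wv n u := by
      have h3 : wv n s ≤ ∑ u ∈ cl G s, wv n u :=
        Finset.single_le_sum (f := fun u => wv n u) (fun u _ => by unfold wv; positivity)
          (mem_cl.2 (Coh.refl s))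
      have h4 : (1 : ℤ) ≤ wv n s := by
        unfold wv
        have : (0 : ℤ) ≤ 5 * (n + 1) * 2 ^ (s : ℕ) := by positivity
        linarith
      exact h4.trans h3
    have h3 : (1 : ℝ) ≤ ((∑ u ∈ cl G s, wv n u : ℤ) : ℝ) := by exact_mod_cast h2
    linarith [h1.1]
  · intro s t hst
    have h1 := abs_le.1 (hclose (cl G s))
    have h2 := abs_le.1 (hclose (cl G t))
    have hne : ∑ u ∈ cl G s, wv n u ≠ ∑ u ∈ cl G t, wv n u := by
      intro h
      have h3 := sum_wv_inj h
      have h4 : t ∈ cl G s := by rw [h3]; exact mem_cl.2 (Coh.refl t)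
      exact hst (mem_cl.1 h4)
    rcases lt_or_gt_of_ne hne with hlt | hlt
    · have h3 : (((∑ u ∈ cl G s, wv n u : ℤ) + 1 : ℤ) : ℝ) ≤ ((∑ u ∈ cl G t, wv n u : ℤ) : ℝ) := by
        exact_mod_cast hlt
      push_cast at h3 h1 h2
      rw [abs_sub_comm]
      refine le_trans ?_ (le_abs_self _)
      linarith [h1.1, h1.2, h2.1, h2.2]
    · have h3 : (((∑ u ∈ cl G t, wv n u : ℤ) + 1 : ℤ) : ℝ) ≤ ((∑ u ∈ cl G s, wv n u : ℤ) : ℝ) := by
        exact_mod_cast hlt
      push_cast at h3 h1 h2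
      refine le_trans ?_ (le_abs_self _)
      linarith [h1.1, h1.2, h2.1, h2.2]

end

end Pool.Agent.H446R3.AG
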