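import Pool.Agent.H446R3.AG.Coh

set_option autoImplicit false
set_option linter.unusedSectionVars false

namespace Pool.Agent.H446R3.AG

noncomputable section

variable {n : ℕ} {G : SimpleGraph (Fin n)} {F A : Type} [Field F] [LieRing A] [LieAlgebra F A]

/-- a basis of vertices and edges presenting the 2-step nilpotent Lie algebra of the graph -/
structure GB (b : Module.Basis (Fin n ⊕ G.edgeSet) F A) : Prop where
  adj : ∀ (i j : Fin n) (h : G.Adj i j), i < j →
    ⁅b (Sum.inl i), b (Sum.inl j)⁆ = b (Sum.inr ⟨s(i, j), G.mem_edgeSet.mpr h⟩)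
  nadj : ∀ i j : Fin n, ¬ G.Adj i j → ⁅b (Sum.inl i), b (Sum.inl j)⁆ = 0
  cen : ∀ (e : G.edgeSet) (k : Fin n ⊕ G.edgeSet), ⁅b (Sum.inr e), b k⁆ = 0

variable {b : Module.Basis (Fin n ⊕ G.edgeSet) F A}

/-- the bracket as a bilinear map -/
def br (F A : Type) [Field F] [LieRing A] [LieAlgebra F A] : A →ₗ[F] A →ₗ[F] A :=
  LinearMap.mk₂ F (fun x y => ⁅x, y⁆) (fun x y z => add_lie x y z) (fun c x y => smul_lie c x y)
    (fun x y z => lie_add x y z) (fun c x y => lie_smul c x y)

@[simp] lemma br_apply (x y : A) : br F A x y = ⁅x, y⁆ := rfl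

/-- vertex coordinate -/
def vc (b : Module.Basis (Fin n ⊕ G.edgeSet) F A) (s : Fin n) : A →ₗ[F] F := b.coord (Sum.inl s)

/-- edge coordinate -/
def ec (b : Module.Basis (Fin n ⊕ G.edgeSet) F A) (e : G.edgeSet) : A →ₗ[F] F :=
  b.coord (Sum.inr e)

lemma vc_inl (b : Module.Basis (Fin n ⊕ G.edgeSet) F A) (s t : Fin n) :
    vc b s (b (Sum.inl t)) = if s = t then 1 else 0 := by
  unfold vc
  rw [Module.Basis.coord_apply, Module.Basis.repr_self, Finsupp.single_apply]
  simp only [Sum.inl.injEq, eq_comm]

lemma vc_inr (b : Module.Basis (Fin n ⊕ G.edgeSet) F A) (s : Fin n) (e : G.edgeSet) :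
    vc b s (b (Sum.inr e)) = 0 := by
  unfold vc
  rw [Module.Basis.coord_apply, Module.Basis.repr_self, Finsupp.single_apply]
  simp

open Classical in
lemma ec_inr (b : Module.Basis (Fin n ⊕ G.edgeSet) F A) (e e' : G.edgeSet) :
    ec b e (b (Sum.inr e')) = if e = e' then 1 else 0 := by
  unfold ec
  rw [Module.Basis.coord_apply, Module.Basis.repr_self, Finsupp.single_apply]
  simp only [Sum.inr.injEq, eq_comm]

lemma ec_inl (b : Module.Basis (Fin n ⊕ G.edgeSet) F A) (e : G.edgeSet) (s : Fin n) :
    ec b e (b (Sum.inl s)) = 0 := by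
  unfold ec
  rw [Module.Basis.coord_apply, Module.Basis.repr_self, Finsupp.single_apply]
  simp

lemma GB.cen' (h : GB b) (e : G.edgeSet) (x : A) : ⁅b (Sum.inr e), x⁆ = 0 := by
  have h1 : br F A (b (Sum.inr e)) = 0 := b.ext fun k => by
    rw [br_apply, h.cen]; rfl
  exact congrArg (fun f : A →ₗ[F] A => f x) h1

lemma GB.cen'' (h : GB b) (e : G.edgeSet) (x : A) : ⁅x, b (Sum.inr e)⁆ = 0 := by
  rw [← lie_skew, h.cen', neg_zero]

/-- brackets have no vertex coordinates -/
lemma GB.vc_lie (h : GB b) (s : Fin n) (x y : A) : vc b s ⁅x, y⁆ = 0 := by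
  have h1 : (br F A).compr₂ (vc b s) = 0 := by
    refine LinearMap.ext_basis b b fun i j => ?_
    rw [LinearMap.compr₂_apply, br_apply]
    rcases i with i | i
    · rcases j with j | j
      · by_cases hij : G.Adj i j
        · rcases lt_or_gt_of_ne hij.ne with hlt | hlt
          · rw [h.adj i j hij hlt, vc_inr]; rfl
          · rw [← lie_skew, h.adj j i hij.symm hlt, map_neg, vc_inr]; simp
        · rw [h.nadj i j hij, map_zero]; rfl
      · rw [h.cen'', map_zero]; rfl
    · rw [h.cen', map_zero]; rfl
  have h2 := congrArg (fun f : A →ₗ[F] A →ₗ[F] F => f x y) h1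
  exact h2

/-- edge coordinates of brackets -/
lemma GB.ec_lie (h : GB b) {s t : Fin n} (hst : G.Adj s t) (hlt : s < t) (x y : A) :
    ec b ⟨s(s, t), G.mem_edgeSet.mpr hst⟩ ⁅x, y⁆ = vc b s x * vc b t y - vc b t x * vc b s y := by
  classical
  let B : A →ₗ[F] A →ₗ[F] F :=
    LinearMap.mk₂ F (fun x y => vc b s x * vc b t y - vc b t x * vc b s y)
      (fun x y z => by simp only [map_add]; ring) (fun c x y => by
        simp only [map_smul, smul_eq_mul]; ring)
      (fun x y z => by simp only [map_add]; ring) (fun c x y => by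
        simp only [map_smul, smul_eq_mul]; ring)
  have h1 : (br F A).compr₂ (ec b ⟨s(s, t), G.mem_edgeSet.mpr hst⟩) = B := by
    refine LinearMap.ext_basis b b fun i j => ?_
    rw [LinearMap.compr₂_apply, br_apply]
    change _ = vc b s (b i) * vc b t (b j) - vc b t (b i) * vc b s (b j)
    rcases i with i | i
    · rcases j with j | j
      · rw [vc_inl, vc_inl, vc_inl, vc_inl]
        by_cases hij : G.Adj i j
        · rcases lt_or_gt_of_ne hij.ne with hlt' | hlt'
          · rw [h.adj i j hij hlt', ec_inr]
            by_cases h3 : s = i ∧ t = j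
            · obtain ⟨rfl, rfl⟩ := h3
              simp [hlt.ne, hlt.ne']
            · have h4 : ¬ ((⟨s(s, t), G.mem_edgeSet.mpr hst⟩ : G.edgeSet) =
                  ⟨s(i, j), G.mem_edgeSet.mpr hij⟩) := by
                intro h5
                have h6 := congrArg Subtype.val h5
                simp only [Sym2.eq_iff] at h6
                rcases h6 with h6 | ⟨h6, h7⟩
                · exact h3 h6
                · subst h6; subst h7
                  exact lt_asymm hlt hlt'
              rw [if_neg h4]
              by_cases h5 : s = i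
              · have h6 : t ≠ j := fun h6 => h3 ⟨h5, h6⟩
                have h7 : t ≠ i := fun h7 => hlt.ne (h5.trans h7.symm)
                rw [if_neg h6, if_neg h7]; ring
              · rw [if_neg h5]
                by_cases h6 : t = i
                · have h7 : s ≠ j := fun h7 => by
                    subst h6; subst h7; exact lt_asymm hlt hlt'
                  rw [if_neg h7]; ring
                · rw [if_neg h6]; ring
          · rw [← lie_skew, h.adj j i hij.symm hlt', map_neg, ec_inr]
            by_cases h3 : s = j ∧ t = i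
            · obtain ⟨rfl, rfl⟩ := h3
              simp [hlt.ne, hlt.ne']
            · have h4 : ¬ ((⟨s(s, t), G.mem_edgeSet.mpr hst⟩ : G.edgeSet) =
                  ⟨s(j, i), G.mem_edgeSet.mpr hij.symm⟩) := by
                intro h5
                have h6 := congrArg Subtype.val h5
                simp only [Sym2.eq_iff] at h6
                rcases h6 with h6 | ⟨h6, h7⟩
                · exact h3 h6
                · subst h6; subst h7
                  exact lt_asymm hlt hlt'
              rw [if_neg h4]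
              by_cases h5 : s = j
              · have h6 : t ≠ i := fun h6 => h3 ⟨h5, h6⟩
                have h7 : t ≠ j := fun h7 => hlt.ne (h5.trans h7.symm)
                rw [if_neg h6, if_neg h7]; ring
              · rw [if_neg h5]
                by_cases h6 : t = j
                · have h7 : s ≠ i := fun h7 => by
                    subst h6; subst h7; exact lt_asymm hlt hlt'
                  rw [if_neg h7]; ring
                · rw [if_neg h6]; ring
        · rw [h.nadj i j hij, map_zero]
          by_cases h3 : s = i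
          · by_cases h4 : t = j
            · subst h3; subst h4; exact absurd hst hij
            · have h5 : t ≠ i := fun h5 => hlt.ne (h3.trans h5.symm)
              rw [if_neg h4, if_neg h5]; ring
          · rw [if_neg h3]
            by_cases h4 : t = i
            · by_cases h5 : s = j
              · subst h4; subst h5; exact absurd hst.symm hij
              · rw [if_neg h5]; ring
            · rw [if_neg h4]; ring
      · rw [h.cen'', map_zero, vc_inr, vc_inr]; ring
    · rw [h.cen', map_zero, vc_inr, vc_inr]; ring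
  have h2 := congrArg (fun f : A →ₗ[F] A →ₗ[F] F => f x y) h1
  exact h2

/-- a signed edge coordinate, for any orientation of the edge -/
lemma GB.exists_coord (h : GB b) {s t : Fin n} (hst : G.Adj s t) :
    ∃ φ : A →ₗ[F] F, ∀ x y, φ ⁅x, y⁆ = vc b s x * vc b t y - vc b t x * vc b s y := by
  rcases lt_or_gt_of_ne hst.ne with hlt | hlt
  · exact ⟨_, h.ec_lie hst hlt⟩
  · refine ⟨-ec b ⟨s(t, s), G.mem_edgeSet.mpr hst.symm⟩, fun x y => ?_⟩
    rw [LinearMap.neg_apply, h.ec_lie hst.symm hlt]; ring

/-- coordinates supported condition for brackets -/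
lemma GB.ec_lie_ne (h : GB b) {x y : A} {s t : Fin n} (hst : s(s, t) ∈ G.edgeSet)
    (hne : ec b ⟨s(s, t), hst⟩ ⁅x, y⁆ ≠ 0) :
    (vc b s x ≠ 0 ∧ vc b t y ≠ 0) ∨ (vc b t x ≠ 0 ∧ vc b s y ≠ 0) := by
  have hadj : G.Adj s t := G.mem_edgeSet.1 hst
  rcases lt_or_gt_of_ne hadj.ne with hlt | hlt
  · rw [h.ec_lie hadj hlt] at hne
    by_contra hcon
    push Not at hcon
    apply hne
    by_cases h1 : vc b s x = 0
    · by_cases h2 : vc b t x = 0
      · rw [h1, h2]; ring
      · rw [h1, hcon.2 h2]; ring
    · rw [hcon.1 h1]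
      by_cases h2 : vc b t x = 0
      · rw [h2]; ring
      · rw [hcon.2 h2]; ring
  · have h3 : (⟨s(s, t), hst⟩ : G.edgeSet) = ⟨s(t, s), G.mem_edgeSet.mpr hadj.symm⟩ :=
      Subtype.ext Sym2.eq_swap
    rw [h3, h.ec_lie hadj.symm hlt] at hne
    by_contra hcon
    push Not at hcon
    apply hne
    by_cases h1 : vc b s x = 0
    · by_cases h2 : vc b t x = 0
      · rw [h1, h2]; ring
      · rw [h1, hcon.2 h2]; ring
    · rw [hcon.1 h1]
      by_cases h2 : vc b t x = 0
      · rw [h2]; ring
      · rw [hcon.2 h2]; ring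

/-- expansion in the basis -/
lemma expand (b : Module.Basis (Fin n ⊕ G.edgeSet) F A) [Fintype G.edgeSet] (x : A) :
    x = ∑ s, vc b s x • b (Sum.inl s) + ∑ e : G.edgeSet, ec b e x • b (Sum.inr e) := by
  conv_lhs => rw [← b.sum_repr x]
  rw [Fintype.sum_sum_type]
  rfl

lemma GB.lie_expand (h : GB b) (x y : A) :
    ⁅x, y⁆ = ∑ t, vc b t y • ⁅x, b (Sum.inl t)⁆ := by
  classical
  have h1 := expand b y
  conv_lhs => rw [h1]
  rw [lie_add, lie_sum, lie_sum]
  have h2 : ∑ e : G.edgeSet, ⁅x, ec b e y • b (Sum.inr e)⁆ = 0 :=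
    Finset.sum_eq_zero fun e _ => by rw [lie_smul, h.cen'', smul_zero]
  rw [h2, add_zero]
  exact Finset.sum_congr rfl fun t _ => lie_smul _ _ _

end

end Pool.Agent.H446R3.AG
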