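import Pool.Agent.H446R3.AG.Eigen

set_option autoImplicit false
set_option linter.unusedSectionVars false
open Topology Filter Polynomial
open scoped TensorProduct

namespace Pool.Agent.H446R3.AG

noncomputable section

/-- algebraic numbers -/
abbrev QA : Type := AlgebraicClosure ℚ

theorem algQA : Algebra.IsAlgebraic ℚ QA := by
  have h : @Algebra.IsAlgebraic ℚ (AlgebraicClosure ℚ) _ _ (AlgebraicClosure.instAlgebra ℚ) :=
    @AlgebraicClosure.isAlgebraic ℚ _
  have e : (AlgebraicClosure.instAlgebra ℚ : Algebra ℚ (AlgebraicClosure ℚ)) =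
    DivisionRing.toRatAlgebra := Subsingleton.elim _ _
  rw [e] at h
  exact h

instance galQA : IsGalois ℚ QA := by
  have h1 := algQA
  have : IsAlgClosure ℚ QA := by
    constructor
    · infer_instance
    · infer_instance
  infer_instance

section act

variable {M : Type} [LieRing M] [LieAlgebra ℚ M]

/-- Galois action on the coefficients -/
def sg (σ : QA ≃ₐ[ℚ] QA) : QA ⊗[ℚ] M →ₗ[ℚ] QA ⊗[ℚ] M :=
  LinearMap.rTensor M (σ.toLinearMap)

lemma sg_tmul (σ : QA ≃ₐ[ℚ] QA) (a : QA) (m : M) : sg σ (a ⊗ₜ[ℚ] m) = σ a ⊗ₜ[ℚ] m := rfl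

lemma sg_smul (σ : QA ≃ₐ[ℚ] QA) (a : QA) (x : QA ⊗[ℚ] M) : sg σ (a • x) = σ a • sg σ x := by
  induction x using TensorProduct.induction_on with
  | zero => simp
  | add x y hx hy => rw [smul_add, map_add, hx, hy, map_add, smul_add]
  | tmul r u =>
    rw [TensorProduct.smul_tmul', sg_tmul, sg_tmul, smul_eq_mul, map_mul,
      TensorProduct.smul_tmul', smul_eq_mul]

lemma sg_lie (σ : QA ≃ₐ[ℚ] QA) (x y : QA ⊗[ℚ] M) : sg σ ⁅x, y⁆ = ⁅sg σ x, sg σ y⁆ := by
  induction x using TensorProduct.induction_on with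
  | zero => simp
  | add x1 x2 h1 h2 => rw [add_lie, map_add, h1, h2, map_add, add_lie]
  | tmul r u =>
    induction y using TensorProduct.induction_on with
    | zero => simp
    | add y1 y2 h1 h2 => rw [lie_add, map_add, h1, h2, map_add, lie_add]
    | tmul s v =>
      rw [LieAlgebra.ExtendScalars.bracket_tmul, sg_tmul, sg_tmul, sg_tmul,
        LieAlgebra.ExtendScalars.bracket_tmul, map_mul]

lemma sg_base (σ : QA ≃ₐ[ℚ] QA) (D : M →ₗ[ℚ] M) (x : QA ⊗[ℚ] M) :
    sg σ (D.baseChange QA x) = D.baseChange QA (sg σ x) := by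
  induction x using TensorProduct.induction_on with
  | zero => simp
  | add x y hx hy => rw [map_add, map_add, hx, hy, map_add, map_add]
  | tmul r u => rw [LinearMap.baseChange_tmul, sg_tmul, sg_tmul, LinearMap.baseChange_tmul]

lemma sg_symm (σ : QA ≃ₐ[ℚ] QA) (x : QA ⊗[ℚ] M) : sg σ.symm (sg σ x) = x := by
  induction x using TensorProduct.induction_on with
  | zero => simp
  | add x y hx hy => rw [map_add, map_add, hx, hy]
  | tmul r u => rw [sg_tmul, sg_tmul, AlgEquiv.symm_apply_apply]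

lemma sg_inj (σ : QA ≃ₐ[ℚ] QA) : Function.Injective (sg (M := M) σ) :=
  Function.LeftInverse.injective (sg_symm σ)

lemma fixed_rat {x : QA ⊗[ℚ] M} [FiniteDimensional ℚ M] (hx : ∀ σ : QA ≃ₐ[ℚ] QA, sg σ x = x) :
    ∃ m : M, x = (1 : QA) ⊗ₜ[ℚ] m := by
  classical
  let m := Module.finBasis ℚ M
  let mK := Algebra.TensorProduct.basis QA m
  have h1 : ∀ (σ : QA ≃ₐ[ℚ] QA) i, σ (mK.repr x i) = mK.repr x i := by
    intro σ i
    have h2 : sg σ x = ∑ j, σ (mK.repr x j) • mK j := by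
      conv_lhs => rw [← mK.sum_repr x]
      rw [map_sum]
      refine Finset.sum_congr rfl fun j _ => ?_
      rw [sg_smul]
      congr 1
      rw [Algebra.TensorProduct.basis_apply, sg_tmul, map_one]
    rw [hx σ] at h2
    have h3 : mK.repr x i = mK.repr (∑ j, σ (mK.repr x j) • mK j) i := by rw [← h2]
    rw [mK.repr_sum_self] at h3
    exact h3.symm
  have h2 : ∀ i, ∃ q : ℚ, algebraMap ℚ QA q = mK.repr x i := fun i =>
    (InfiniteGalois.mem_range_algebraMap_iff_fixed (k := ℚ) (K := QA) _).2 fun σ => h1 σ i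
  choose q hq using h2
  refine ⟨∑ i, q i • m i, ?_⟩
  rw [TensorProduct.tmul_sum]
  conv_lhs => rw [← mK.sum_repr x]
  refine Finset.sum_congr rfl fun i _ => ?_
  rw [← hq, Algebra.TensorProduct.basis_apply, TensorProduct.tmul_smul, algebraMap_smul]

end act

/-- a rational functional with value one at one -/
lemma exists_one : ∃ f : QA →ₗ[ℚ] ℚ, f 1 = 1 := by
  have h1 : (Algebra.linearMap ℚ QA).ker = ⊥ := LinearMap.ker_eq_bot.2 (algebraMap ℚ QA).injective
  obtain ⟨f, hf⟩ := LinearMap.exists_leftInverse_of_injective _ h1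
  refine ⟨f, ?_⟩
  have h2 := congrArg (fun g : ℚ →ₗ[ℚ] ℚ => g 1) hf
  simpa using h2

/-- homomorphisms -/
def IsH {F A : Type} [Field F] [LieRing A] [LieAlgebra F A] (g : A →ₗ[F] A) : Prop :=
  ∀ x y, g ⁅x, y⁆ = ⁅g x, g y⁆

/-- descent of an equivariant endomorphism -/
lemma descent {M : Type} [LieRing M] [LieAlgebra ℚ M] [FiniteDimensional ℚ M]
    {g : QA ⊗[ℚ] M →ₗ[QA] QA ⊗[ℚ] M} (hg : IsH g)
    (hσ : ∀ (σ : QA ≃ₐ[ℚ] QA) x, sg σ (g x) = g (sg σ x)) :
    ∃ g₀ : M →ₗ[ℚ] M, IsH g₀ ∧ g = g₀.baseChange QA := by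
  obtain ⟨f, hf⟩ := exists_one
  have h1 : ∀ m : M, ∃ m' : M, g ((1 : QA) ⊗ₜ[ℚ] m) = (1 : QA) ⊗ₜ[ℚ] m' := by
    intro m
    refine fixed_rat fun σ => ?_
    rw [hσ, sg_tmul, map_one]
  let g₀ : M →ₗ[ℚ] M :=
    { toFun := fun m => slice f (g ((1 : QA) ⊗ₜ[ℚ] m))
      map_add' := fun x y => by rw [TensorProduct.tmul_add, map_add, map_add]
      map_smul' := fun c x => by
        rw [TensorProduct.tmul_smul, LinearMap.map_smul_of_tower, map_smul]; rfl }
  have h2 : ∀ m : M, g ((1 : QA) ⊗ₜ[ℚ] m) = (1 : QA) ⊗ₜ[ℚ] g₀ m := by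
    intro m
    obtain ⟨m', hm'⟩ := h1 m
    change _ = (1 : QA) ⊗ₜ[ℚ] (slice f (g ((1 : QA) ⊗ₜ[ℚ] m)))
    rw [hm', slice_tmul, hf, one_smul]
  have h3 : ∀ x y : M, (1 : QA) ⊗ₜ[ℚ] x = (1 : QA) ⊗ₜ[ℚ] y → x = y := by
    intro x y hxy
    have := congrArg (slice f) hxy
    rwa [slice_tmul, slice_tmul, hf, one_smul, one_smul] at this
  refine ⟨g₀, fun x y => h3 _ _ ?_, ?_⟩
  · have e1 : ∀ u v : M, (1 : QA) ⊗ₜ[ℚ] ⁅u, v⁆ = ⁅(1 : QA) ⊗ₜ[ℚ] u, (1 : QA) ⊗ₜ[ℚ] v⁆ := by
      intro u v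
      rw [LieAlgebra.ExtendScalars.bracket_tmul, mul_one]
    rw [← h2, e1, hg, h2, h2, ← e1]
  · refine LinearMap.ext fun x => ?_
    induction x using TensorProduct.induction_on with
    | zero => simp
    | add x y hx hy => rw [map_add, map_add, hx, hy]
    | tmul r u =>
      have h4 : r ⊗ₜ[ℚ] u = r • ((1 : QA) ⊗ₜ[ℚ] u) := by
        rw [TensorProduct.smul_tmul', smul_eq_mul, mul_one]
      rw [h4, map_smul, h2, map_smul, LinearMap.baseChange_tmul]

variable {n : ℕ} {G : SimpleGraph (Fin n)} [Fintype G.edgeSet]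
  {M : Type} [LieRing M] [LieAlgebra ℚ M] [FiniteDimensional ℚ M]

/-- Galois permutes a normalised eigenbasis -/
lemma galois_perm {D : M →ₗ[ℚ] M} {e : Module.Basis (Fin n ⊕ G.edgeSet) QA (QA ⊗[ℚ] M)}
    {δ : Fin n ⊕ G.edgeSet → QA} (h : EB (D.baseChange QA) e δ) {v : M}
    (hv : (1 : QA) ⊗ₜ[ℚ] v = ∑ i, e i) (σ : QA ≃ₐ[ℚ] QA) :
    ∃ ρ : Equiv.Perm (Fin n), (∀ s, σ (δ (Sum.inl s)) = δ (Sum.inl (ρ s))) ∧
      (∀ s, sg σ (e (Sum.inl s)) = e (Sum.inl (ρ s))) ∧ ∀ s t, G.Adj s t ↔ G.Adj (ρ s) (ρ t) := by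
  classical
  have h1 : ∀ i, D.baseChange QA (sg σ (e i)) = σ (δ i) • sg σ (e i) := by
    intro i
    rw [← sg_base, h.eig, sg_smul]
  have hne : ∀ i, sg σ (e i) ≠ 0 := fun i h0 => by
    have : sg σ (e i) = sg σ 0 := by rw [h0, map_zero]
    exact e.ne_zero i (sg_inj σ this)
  have h2 : ∀ i, ∃ k, δ k = σ (δ i) := by
    intro i
    by_contra hcon
    push Not at hcon
    exact hne i (h.eq_zero (h1 i) hcon)
  choose π hπ using h2
  have hinj : Function.Injective π := by
    intro i j hij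
    have h3 : σ (δ i) = σ (δ j) := by rw [← hπ, ← hπ, hij]
    exact h.inj (σ.injective h3)
  have hc : ∀ i, sg σ (e i) = (e.repr (sg σ (e i)) (π i)) • e (π i) := by
    intro i
    refine h.eq_smul ?_
    rw [hπ]; exact h1 i
  have hv2 : sg σ ((1 : QA) ⊗ₜ[ℚ] v) = (1 : QA) ⊗ₜ[ℚ] v := by rw [sg_tmul, map_one]
  have hcoef : ∀ i, e.repr (sg σ (e i)) (π i) = 1 := by
    intro i
    have h4 : e.repr ((1 : QA) ⊗ₜ[ℚ] v) (π i) = 1 := by
      rw [hv, map_sum, Finsupp.finsetSum_apply, Finset.sum_eq_single (π i)]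
      · rw [Module.Basis.repr_self, Finsupp.single_eq_same]
      · intro j _ hj
        rw [Module.Basis.repr_self, Finsupp.single_apply, if_neg hj]
      · intro hj; exact absurd (Finset.mem_univ _) hj
    rw [← hv2, hv, map_sum, map_sum, Finsupp.finsetSum_apply, Finset.sum_eq_single i] at h4
    · exact h4
    · intro j _ hj
      rw [hc j, map_smul, Module.Basis.repr_self, Finsupp.smul_apply, Finsupp.single_apply,
        if_neg (fun h5 => hj (hinj h5)), smul_zero]
    · intro hj; exact absurd (Finset.mem_univ _) hj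
  have hsg : ∀ i, sg σ (e i) = e (π i) := fun i => by
    have h5 := hc i
    rw [hcoef, one_smul] at h5; exact h5
  have hlie : ∀ i j, sg σ ⁅e i, e j⁆ = ⁅e (π i), e (π j)⁆ := fun i j => by
    rw [sg_lie, hsg, hsg]
  -- edges go to edges
  have hedge : ∀ x : G.edgeSet, ∃ y : G.edgeSet, π (Sum.inr x) = Sum.inr y := by
    intro x
    obtain ⟨p, hp, -, hx⟩ := ends x
    obtain ⟨c, hc'⟩ := h.lie_adj hp
    have hne2 := h.lie_ne hp
    rw [← hx] at hc'
    have hc0 : c ≠ 0 := fun h0 => hne2 (by rw [hc', h0, zero_smul])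
    have h6 : ⁅e (π (Sum.inl p.1)), e (π (Sum.inl p.2))⁆ = σ c • e (π (Sum.inr x)) := by
      rw [← hlie, hc', sg_smul, hsg]
    have h7 : ⁅e (π (Sum.inl p.1)), e (π (Sum.inl p.2))⁆ ≠ 0 := by
      rw [h6]
      exact smul_ne_zero (fun h0 => hc0 (by
        have : σ c = σ 0 := by rw [h0, map_zero]
        exact σ.injective this)) (e.ne_zero _)
    rcases ha : π (Sum.inl p.1) with a | a
    · rcases hb : π (Sum.inl p.2) with b | b
      · rw [ha, hb] at h6 h7
        have hadj : G.Adj a b := by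
          by_contra hn
          exact h7 (h.lie_nadj hn)
        obtain ⟨c', hc''⟩ := h.lie_adj hadj
        have hc0' : σ c ≠ 0 := fun h0 => h7 (by rw [h6, h0, zero_smul])
        rw [hc''] at h6
        refine ⟨⟨s(a, b), G.mem_edgeSet.mpr hadj⟩, ?_⟩
        by_contra hn
        have h8 := congrArg (fun z => e.repr z (π (Sum.inr x))) h6
        simp only [map_smul, Module.Basis.repr_self, Finsupp.smul_apply, Finsupp.single_apply,
          smul_eq_mul, if_true, mul_one] at h8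
        rw [if_neg (fun h9 => hn h9.symm), mul_zero] at h8
        exact hc0' h8.symm
      · rw [ha, hb] at h7
        exact absurd (by rw [← lie_skew, h.lie_cen, neg_zero]) h7
    · rw [ha] at h7
      exact absurd (h.lie_cen _ _) h7
  choose πe hπe using hedge
  have hπe_inj : Function.Injective πe := by
    intro x y hxy
    have : π (Sum.inr x) = π (Sum.inr y) := by rw [hπe, hπe, hxy]
    exact Sum.inr_injective (hinj this)
  have hπe_surj : Function.Surjective πe := Finite.injective_iff_surjective.1 hπe_inj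
  have hvert : ∀ s : Fin n, ∃ t : Fin n, π (Sum.inl s) = Sum.inl t := by
    intro s
    rcases hs : π (Sum.inl s) with t | y
    · exact ⟨t, rfl⟩
    · obtain ⟨x, hx⟩ := hπe_surj y
      rw [← hx, ← hπe] at hs
      exact absurd (hinj hs) (by simp)
  choose ρ hρ using hvert
  have hρ_inj : Function.Injective ρ := by
    intro s t hst
    have : π (Sum.inl s) = π (Sum.inl t) := by rw [hρ, hρ, hst]
    exact Sum.inl_injective (hinj this)
  refine ⟨Equiv.ofBijective ρ (Finite.injective_iff_bijective.1 hρ_inj), ?_, ?_, ?_⟩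
  · intro s
    rw [Equiv.ofBijective_apply, ← hρ, hπ]
  · intro s
    rw [Equiv.ofBijective_apply, ← hρ, hsg]
  · intro s t
    rw [Equiv.ofBijective_apply, Equiv.ofBijective_apply]
    have h8 := hlie (Sum.inl s) (Sum.inl t)
    rw [hρ, hρ] at h8
    constructor
    · intro hadj
      by_contra hn
      rw [h.lie_nadj hn] at h8
      have : sg σ ⁅e (Sum.inl s), e (Sum.inl t)⁆ = sg σ 0 := by rw [h8, map_zero]
      exact h.lie_ne hadj (sg_inj σ this)
    · intro hadj
      by_contra hn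
      rw [h.lie_nadj hn, map_zero] at h8
      exact h.lie_ne hadj h8.symm

end

end Pool.Agent.H446R3.AG
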