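import Pool.Agent.H446R3.AG.GB

set_option autoImplicit false
set_option linter.unusedSectionVars false

namespace Pool.Agent.H446R3.AG

noncomputable section

variable {n : ℕ} {G : SimpleGraph (Fin n)} [DecidableRel G.Adj]
  {F A : Type} [Field F] [LieRing A] [LieAlgebra F A] [FiniteDimensional F A]
  {b : Module.Basis (Fin n ⊕ G.edgeSet) F A}

/-- rank of the adjoint map -/
def rk (F : Type) {A : Type} [Field F] [LieRing A] [LieAlgebra F A] (w : A) : ℕ :=
  Module.finrank F (LinearMap.range (br F A w))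

/-- edge coordinates at a vertex -/
def star (h : GB b) (t : Fin n) : A →ₗ[F] (G.neighborSet t → F) :=
  LinearMap.pi fun x : G.neighborSet t => Classical.choose (h.exists_coord x.2)

lemma star_apply (h : GB b) (t : Fin n) (x y : A) (z : G.neighborSet t) :
    star h t ⁅x, y⁆ z = vc b t x * vc b z.1 y - vc b z.1 x * vc b t y :=
  Classical.choose_spec (h.exists_coord z.2) x y

lemma star_surj (h : GB b) {t : Fin n} {w : A} (hw : vc b t w ≠ 0) :
    Function.Surjective ((star h t).domRestrict (LinearMap.range (br F A w))) := by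
  classical
  intro g
  let u : A := ∑ x : G.neighborSet t, (g x / vc b t w) • b (Sum.inl x.1)
  have hu1 : vc b t u = 0 := by
    change vc b t (∑ x : G.neighborSet t, (g x / vc b t w) • b (Sum.inl x.1)) = 0
    rw [map_sum]
    refine Finset.sum_eq_zero fun x _ => ?_
    rw [map_smul, vc_inl, if_neg (G.ne_of_adj x.2), smul_zero]
  have hu2 : ∀ z : G.neighborSet t, vc b z.1 u = g z / vc b t w := by
    intro z
    change vc b z.1 (∑ x : G.neighborSet t, (g x / vc b t w) • b (Sum.inl x.1)) = _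
    rw [map_sum, Finset.sum_eq_single z]
    · rw [map_smul, vc_inl, if_pos rfl, smul_eq_mul, mul_one]
    · intro x _ hx
      rw [map_smul, vc_inl, if_neg (fun h => hx (Subtype.ext h.symm)), smul_zero]
    · intro hz; exact absurd (Finset.mem_univ _) hz
  refine ⟨⟨⁅w, u⁆, ⟨u, rfl⟩⟩, ?_⟩
  funext z
  rw [LinearMap.domRestrict_apply]
  change star h t ⁅w, u⁆ z = g z
  rw [star_apply, hu1, hu2]
  field_simp
  ring

lemma degree_le_rk (h : GB b) {t : Fin n} {w : A} (hw : vc b t w ≠ 0) :
    G.degree t ≤ rk F w := by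
  classical
  have h1 := LinearMap.finrank_le_finrank_of_surjective (star_surj h hw)
  rw [Module.finrank_fintype_fun_eq_card, G.card_neighborSet_eq_degree] at h1
  exact h1

lemma lie_zero_of_rk (h : GB b) {s x : Fin n} {w : A} (hr : rk F w ≤ G.degree s)
    (hs : vc b s w ≠ 0) (hxs : x ≠ s) (hx : ¬ G.Adj s x) : ⁅w, b (Sum.inl x)⁆ = 0 := by
  classical
  have h1 : Module.finrank F (LinearMap.range (br F A w)) =
      Module.finrank F (G.neighborSet s → F) := by
    rw [Module.finrank_fintype_fun_eq_card, G.card_neighborSet_eq_degree]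
    exact le_antisymm hr (degree_le_rk h hs)
  have hinj := (LinearMap.injective_iff_surjective_of_finrank_eq_finrank h1).2 (star_surj h hs)
  have h2 : (⟨⁅w, b (Sum.inl x)⁆, ⟨_, rfl⟩⟩ : LinearMap.range (br F A w)) = 0 := by
    apply hinj
    rw [map_zero]
    funext z
    rw [LinearMap.domRestrict_apply, star_apply, vc_inl, vc_inl, if_neg hxs.symm,
      if_neg (fun h => hx (by rw [← h]; exact z.2))]
    simp
  exact congrArg Subtype.val h2

lemma nb_sub (h : GB b) {s u : Fin n} {w : A} (hr : rk F w ≤ G.degree s)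
    (hs : vc b s w ≠ 0) (hu : vc b u w ≠ 0) (x : Fin n) (hux : G.Adj u x) (hxs : x ≠ s) :
    G.Adj s x := by
  by_contra hx
  have h1 := lie_zero_of_rk h hr hs hxs hx
  obtain ⟨φ, hφ⟩ := h.exists_coord hux
  have h2 := hφ w (b (Sum.inl x))
  rw [h1, map_zero, vc_inl, vc_inl, if_pos rfl, if_neg hux.ne] at h2
  apply hu
  simpa using h2.symm

lemma coh_of_rk (h : GB b) {s u : Fin n} {w : A} (hr : rk F w ≤ G.degree s)
    (hs : vc b s w ≠ 0) (hu : vc b u w ≠ 0) (hd : G.degree u = G.degree s) : Coh G s u :=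
  coh_of_sub (nb_sub h (hd ▸ hr) hu hs) (nb_sub h hr hs hu)

lemma rk_le (h : GB b) {s : Fin n} {v : A} (hs : vc b s v ≠ 0)
    (hv : ∀ u, vc b u v ≠ 0 → Coh G s u) : rk F v ≤ G.degree s := by
  classical
  let f : G.neighborSet s → A := fun x => ⁅v, b (Sum.inl x.1)⁆
  have key : ∀ t, t ≠ s → ⁅v, b (Sum.inl t)⁆ ∈ Submodule.span F (Set.range f) := by
    intro t ht
    by_cases hadj : G.Adj s t
    · exact Submodule.subset_span ⟨⟨t, hadj⟩, rfl⟩
    · have : ⁅v, b (Sum.inl t)⁆ = 0 := by
        rw [← lie_skew, h.lie_expand, neg_eq_zero]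
        refine Finset.sum_eq_zero fun u _ => ?_
        by_cases hu : vc b u v = 0
        · rw [hu, zero_smul]
        · have h1 := hv u hu
          rw [h.nadj, smul_zero]
          intro h2
          exact hadj ((h1 t ht h2.ne).2 h2.symm)
      rw [this]; exact Submodule.zero_mem _
  have key2 : ∀ t, ⁅v, b (Sum.inl t)⁆ ∈ Submodule.span F (Set.range f) := by
    intro t
    rcases eq_or_ne t s with rfl | ht
    · have h1 : (0:A) = vc b t v • ⁅v, b (Sum.inl t)⁆ +
          ∑ u ∈ Finset.univ.erase t, vc b u v • ⁅v, b (Sum.inl u)⁆ := by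
        rw [Finset.add_sum_erase _ (fun u => vc b u v • ⁅v, b (Sum.inl u)⁆)
          (Finset.mem_univ t), ← h.lie_expand, lie_self]
      have h2 : ⁅v, b (Sum.inl t)⁆ = (-(vc b t v)⁻¹) •
          ∑ u ∈ Finset.univ.erase t, vc b u v • ⁅v, b (Sum.inl u)⁆ := by
        have h3 : ∑ u ∈ Finset.univ.erase t, vc b u v • ⁅v, b (Sum.inl u)⁆ =
            -(vc b t v • ⁅v, b (Sum.inl t)⁆) := by
          rw [eq_neg_iff_add_eq_zero, add_comm]; exact h1.symm
        rw [h3, neg_smul, smul_neg, neg_neg, smul_smul, inv_mul_cancel₀ hs, one_smul]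
      rw [h2]
      exact Submodule.smul_mem _ _ (Submodule.sum_mem _ fun u hu =>
        Submodule.smul_mem _ _ (key u (Finset.ne_of_mem_erase hu)))
    · exact key t ht
  have hle : LinearMap.range (br F A v) ≤ Submodule.span F (Set.range f) := by
    rintro _ ⟨y, rfl⟩
    rw [br_apply, h.lie_expand]
    exact Submodule.sum_mem _ fun t _ => Submodule.smul_mem _ _ (key2 t)
  calc rk F v ≤ Module.finrank F (Submodule.span F (Set.range f)) := Submodule.finrank_mono hle
    _ ≤ Fintype.card (G.neighborSet s) := finrank_range_le_card f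
    _ = G.degree s := G.card_neighborSet_eq_degree s

/-- vectors whose vertex coordinates are supported on `P` -/
def VS (b : Module.Basis (Fin n ⊕ G.edgeSet) F A) (P : Fin n → Prop) : Submodule F A where
  carrier := {v | ∀ t, vc b t v ≠ 0 → P t}
  add_mem' := by
    intro v w hv hw t ht
    by_cases h1 : vc b t v = 0
    · refine hw t fun h2 => ht ?_
      rw [map_add, h1, h2, add_zero]
    · exact hv t h1
  zero_mem' := fun t ht => absurd (map_zero _) ht
  smul_mem' := by
    intro c v hv t ht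
    refine hv t fun h1 => ht ?_
    rw [map_smul, h1, smul_zero]

lemma mem_VS {P : Fin n → Prop} {v : A} : v ∈ VS b P ↔ ∀ t, vc b t v ≠ 0 → P t := Iff.rfl

lemma inr_mem_VS (P : Fin n → Prop) (e : G.edgeSet) : b (Sum.inr e) ∈ VS b P :=
  fun t ht => absurd (vc_inr b t e) ht

lemma map_mem {P : Fin n → Prop} {T : Submodule F A} (g : A →ₗ[F] A)
    (h1 : ∀ t, P t → g (b (Sum.inl t)) ∈ T) (h2 : ∀ e, g (b (Sum.inr e)) ∈ T) {v : A}
    (hv : v ∈ VS b P) : g v ∈ T := by
  classical
  rw [expand b v, map_add, map_sum, map_sum]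
  refine Submodule.add_mem _ (Submodule.sum_mem _ fun t _ => ?_)
    (Submodule.sum_mem _ fun e _ => ?_)
  · by_cases ht : vc b t v = 0
    · rw [ht, zero_smul, map_zero]; exact Submodule.zero_mem _
    · rw [map_smul]; exact Submodule.smul_mem _ _ (h1 t (hv t ht))
  · rw [map_smul]; exact Submodule.smul_mem _ _ (h2 e)

/-- bracket preserving linear equivalences -/
def IsA (g : A ≃ₗ[F] A) : Prop := ∀ x y, g ⁅x, y⁆ = ⁅g x, g y⁆

lemma IsA.symm {g : A ≃ₗ[F] A} (hg : IsA g) : IsA g.symm := by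
  intro x y
  apply g.injective
  rw [hg, g.apply_symm_apply, g.apply_symm_apply, g.apply_symm_apply]

lemma IsA.trans {g k : A ≃ₗ[F] A} (hg : IsA g) (hk : IsA k) : IsA (g.trans k) := by
  intro x y
  simp only [LinearEquiv.trans_apply]
  rw [hg, hk]

lemma IsA.pow {g : A ≃ₗ[F] A} (hg : IsA g) (m : ℕ) : IsA (g ^ m) := by
  induction m with
  | zero => intro x y; simp
  | succ m ih =>
    intro x y
    rw [pow_succ, LinearEquiv.mul_apply, LinearEquiv.mul_apply, LinearEquiv.mul_apply, hg, ih]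

lemma rk_map {g : A ≃ₗ[F] A} (hg : IsA g) (v : A) : rk F (g v) = rk F v := by
  have h1 : LinearMap.range (br F A (g v)) = (LinearMap.range (br F A v)).map g.toLinearMap := by
    ext y
    constructor
    · rintro ⟨z, rfl⟩
      refine ⟨⁅v, g.symm z⁆, ⟨g.symm z, rfl⟩, ?_⟩
      change g ⁅v, g.symm z⁆ = ⁅g v, z⁆
      rw [hg, g.apply_symm_apply]
    · rintro ⟨_, ⟨z, rfl⟩, rfl⟩
      refine ⟨g z, ?_⟩
      change ⁅g v, g z⁆ = g ⁅v, z⁆
      rw [hg]
  unfold rk
  rw [h1]
  exact LinearEquiv.finrank_map_eq g _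

lemma exists_lie (h : GB b) (e : G.edgeSet) :
    ∃ i j, ∃ hij : G.Adj i j, i < j ∧ e = ⟨s(i, j), G.mem_edgeSet.mpr hij⟩ ∧
      b (Sum.inr e) = ⁅b (Sum.inl i), b (Sum.inl j)⁆ := by
  obtain ⟨e, he⟩ := e
  induction e using Sym2.ind with
  | _ i j =>
    have hij : G.Adj i j := G.mem_edgeSet.1 he
    rcases lt_or_gt_of_ne hij.ne with hlt | hlt
    · exact ⟨i, j, hij, hlt, rfl, (h.adj i j hij hlt).symm⟩
    · refine ⟨j, i, hij.symm, hlt, Subtype.ext Sym2.eq_swap, ?_⟩
      rw [h.adj j i hij.symm hlt]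
      congr 2
      exact Subtype.ext Sym2.eq_swap

lemma map_inr (h : GB b) {g : A ≃ₗ[F] A} (hg : IsA g) (P : Fin n → Prop) (e : G.edgeSet) :
    g (b (Sum.inr e)) ∈ VS b P := by
  obtain ⟨i, j, hij, -, -, hb⟩ := exists_lie h e
  rw [hb, hg]
  exact fun t ht => absurd (h.vc_lie t _ _) ht

lemma map_low (h : GB b) {g : A ≃ₗ[F] A} (hg : IsA g) (k : ℕ) {v : A}
    (hv : v ∈ VS b (fun t => G.degree t < k)) : g v ∈ VS b (fun t => G.degree t < k) := by
  refine map_mem g.toLinearMap (fun t ht => ?_) (fun e => map_inr h hg _ e) hv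
  intro u hu
  have h1 := degree_le_rk h hu
  have h2 : rk F (g.toLinearMap (b (Sum.inl t))) = rk F (b (Sum.inl t)) := rk_map hg _
  rw [h2] at h1
  have h3 : rk F (b (Sum.inl t)) ≤ G.degree t := by
    refine rk_le h (by rw [vc_inl, if_pos rfl]; exact one_ne_zero) fun u hu => ?_
    rw [vc_inl] at hu
    by_cases h4 : u = t
    · rw [h4]; exact Coh.refl _
    · rw [if_neg h4] at hu; exact absurd rfl hu
  exact (h1.trans h3).trans_lt ht

/-- the subspace attached to the class of a vertex -/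
def US (b : Module.Basis (Fin n ⊕ G.edgeSet) F A) (s : Fin n) : Submodule F A :=
  VS b (fun t => G.degree t < G.degree s ∨ Coh G s t)

lemma US_congr {s t : Fin n} (h : Coh G s t) : US b s = US b t := by
  unfold US
  congr 1
  funext u
  rw [h.degree]
  exact propext (or_congr Iff.rfl ⟨fun h2 => h.symm.trans h2, fun h2 => h.trans h2⟩)

lemma low_le_US (s t : Fin n) (hd : G.degree s = G.degree t) :
    VS b (fun u => G.degree u < G.degree s) ≤ US b t := by
  intro v hv u hu
  left; rw [← hd]; exact hv u hu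

lemma top_aux (h : GB b) {g : A ≃ₗ[F] A} (hg : IsA g) {s : Fin n} {v : A}
    (hs : vc b s v ≠ 0) (hv : ∀ u, vc b u v ≠ 0 → Coh G s u) :
    ∃ t, G.degree t = G.degree s ∧ vc b t (g v) ≠ 0 ∧ g v ∈ US b t := by
  have hr : rk F (g v) ≤ G.degree s := by rw [rk_map hg]; exact rk_le h hs hv
  have h1 : ∃ t, vc b t (g v) ≠ 0 ∧ ¬ G.degree t < G.degree s := by
    by_contra hcon
    push Not at hcon
    have h2 : g v ∈ VS b (fun t => G.degree t < G.degree s) := hcon
    have h3 := map_low h hg.symm _ h2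
    rw [g.symm_apply_apply] at h3
    exact lt_irrefl _ (h3 s hs)
  obtain ⟨t, ht, hd⟩ := h1
  have hd' : G.degree t = G.degree s :=
    le_antisymm ((degree_le_rk h ht).trans hr) (not_lt.1 hd)
  refine ⟨t, hd', ht, fun u hu => ?_⟩
  have h2 : G.degree u ≤ G.degree t := by rw [hd']; exact (degree_le_rk h hu).trans hr
  rcases h2.lt_or_eq with h3 | h3
  · exact Or.inl h3
  · exact Or.inr (coh_of_rk h (hd' ▸ hr) ht hu h3)

lemma map_US (h : GB b) {g : A ≃ₗ[F] A} (hg : IsA g) (s : Fin n) :
    ∃ t, G.degree t = G.degree s ∧ ∀ v ∈ US b s, g v ∈ US b t := by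
  have hone : ∀ u : Fin n, vc b u (b (Sum.inl u)) ≠ 0 := fun u => by
    rw [vc_inl, if_pos rfl]; exact one_ne_zero
  have hsupp : ∀ u t : Fin n, vc b t (b (Sum.inl u)) ≠ 0 → Coh G u t := fun u t ht => by
    rw [vc_inl] at ht
    by_cases h4 : t = u
    · rw [h4]; exact Coh.refl _
    · rw [if_neg h4] at ht; exact absurd rfl ht
  obtain ⟨t, hd, ht, hU⟩ := top_aux h hg (hone s) (hsupp s)
  refine ⟨t, hd, fun v hv => ?_⟩
  refine map_mem g.toLinearMap (fun u hu => ?_) (fun e => map_inr h hg _ e) hv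
  rcases hu with hu | hu
  · have h1 : b (Sum.inl u) ∈ VS b (fun t => G.degree t < G.degree s) := by
      intro w hw
      rw [(hsupp u w hw).symm.degree]; exact hu
    exact low_le_US s t hd.symm (map_low h hg _ h1)
  · rcases eq_or_ne s u with rfl | hne
    · exact hU
    obtain ⟨t', hd', ht', hU'⟩ := top_aux h hg (hone u) (hsupp u)
    have hdu : G.degree u = G.degree s := hu.symm.degree
    have hco : Coh G t t' := by
      by_contra hcon
      have e1 : vc b t' (g (b (Sum.inl s))) = 0 := by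
        by_contra h1
        rcases hU t' h1 with h2 | h2
        · rw [hd', hdu, hd] at h2; exact lt_irrefl _ h2
        · exact hcon h2
      have e2 : vc b t (g (b (Sum.inl u))) = 0 := by
        by_contra h1
        rcases hU' t h1 with h2 | h2
        · rw [hd', hdu, hd] at h2; exact lt_irrefl _ h2
        · exact hcon h2.symm
      have hsum : vc b s (b (Sum.inl s) + b (Sum.inl u)) ≠ 0 := by
        rw [map_add, vc_inl, vc_inl, if_pos rfl, if_neg hne, add_zero]
        exact one_ne_zero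
      have hsup : ∀ w, vc b w (b (Sum.inl s) + b (Sum.inl u)) ≠ 0 → Coh G s w := by
        intro w hw
        by_cases h1 : vc b w (b (Sum.inl s)) = 0
        · refine hu.trans (hsupp u w fun h2 => hw ?_)
          rw [map_add, h1, h2, add_zero]
        · exact hsupp s w h1
      have hr : rk F (g (b (Sum.inl s) + b (Sum.inl u))) ≤ G.degree t := by
        rw [rk_map hg, hd]; exact rk_le h hsum hsup
      refine hcon (coh_of_rk h hr ?_ ?_ ?_)
      · rw [map_add, map_add, e2, add_zero]; exact ht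
      · rw [map_add, map_add, e1, zero_add]; exact ht'
      · rw [hd', hdu, hd]
    change g (b (Sum.inl u)) ∈ US b t
    rw [US_congr hco]
    exact hU'

/-- some positive power preserves the subspace of a class -/
lemma exists_pow (h : GB b) {g : A ≃ₗ[F] A} (hg : IsA g) (s : Fin n) :
    ∃ m : ℕ, 0 < m ∧ ∀ v ∈ US b s, (g ^ m) v ∈ US b s := by
  choose t ht using fun i : ℕ => map_US h (hg.pow i) s
  obtain ⟨i, j, hij, hteq⟩ := Finite.exists_ne_map_eq_of_infinite t
  wlog hlt : i < j generalizing i j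
  · exact this j i hij.symm hteq.symm (lt_of_le_of_ne (not_lt.1 hlt) hij.symm)
  refine ⟨j - i, Nat.sub_pos_of_lt hlt, fun v hv => ?_⟩
  obtain ⟨t', hd', hU'⟩ := map_US h (hg.pow i).symm (t i)
  have hone : vc b s (b (Sum.inl s)) ≠ 0 := by
    rw [vc_inl, if_pos rfl]; exact one_ne_zero
  have hbs : b (Sum.inl s) ∈ US b s := by
    intro w hw
    rw [vc_inl] at hw
    by_cases h4 : w = s
    · rw [h4]; exact Or.inr (Coh.refl _)
    · rw [if_neg h4] at hw; exact absurd rfl hw
  have h1 := hU' _ ((ht i).2 _ hbs)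
  rw [LinearEquiv.symm_apply_apply] at h1
  have hco : Coh G t' s := by
    rcases h1 s hone with h2 | h2
    · rw [hd', (ht i).1] at h2; exact absurd h2 (lt_irrefl _)
    · exact h2
  have h3 : (g ^ j) v ∈ US b (t i) := by rw [hteq]; exact (ht j).2 v hv
  have h4 := hU' _ h3
  rw [← US_congr hco]
  have h5 : (g ^ i).symm ((g ^ j) v) = (g ^ (j - i)) v := by
    apply (g ^ i).injective
    rw [LinearEquiv.apply_symm_apply, ← LinearEquiv.mul_apply, ← pow_add,
      Nat.add_sub_cancel' hlt.le]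
  rw [h5] at h4
  exact h4

end

end Pool.Agent.H446R3.AG
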