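import Pool.Agent.H446R3.AG.Comp

set_option autoImplicit false
set_option linter.unusedSectionVars false
open Topology Filter Polynomial
open scoped TensorProduct

namespace Pool.Agent.H446R3.AG

noncomputable section

variable {n : ℕ} {G : SimpleGraph (Fin n)} {F A : Type} [Field F] [LieRing A] [LieAlgebra F A]
  {b : Module.Basis (Fin n ⊕ G.edgeSet) F A}

/-- brackets are central -/
lemma GB.lie_lie (h : GB b) [Fintype G.edgeSet] (x y z : A) : ⁅⁅x, y⁆, z⁆ = 0 := by
  classical
  rw [← lie_skew, h.lie_expand z, neg_eq_zero]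
  exact Finset.sum_eq_zero fun t _ => by rw [h.vc_lie, zero_smul]

/-- homomorphisms are determined by admissible images of the vertices -/
lemma GB.exists_hom (h : GB b) [Fintype G.edgeSet] (x : Fin n → A)
    (hx : ∀ s t, ¬ G.Adj s t → ⁅x s, x t⁆ = 0) :
    ∃ g : A →ₗ[F] A, IsH g ∧ ∀ s, g (b (Sum.inl s)) = x s := by
  classical
  choose P hP1 hP2 hP3 using fun y : G.edgeSet => ends y
  let g : A →ₗ[F] A := b.constr F (Sum.elim x (fun y => ⁅x (P y).1, x (P y).2⁆))
  have g1 : ∀ s, g (b (Sum.inl s)) = x s := fun s => b.constr_basis F _ _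
  have g2 : ∀ y, g (b (Sum.inr y)) = ⁅x (P y).1, x (P y).2⁆ := fun y => b.constr_basis F _ _
  have g3 : ∀ i j (hij : G.Adj i j), i < j →
      g (b (Sum.inr ⟨s(i, j), G.mem_edgeSet.mpr hij⟩)) = ⁅x i, x j⁆ := by
    intro i j hij hlt
    rw [g2]
    have h1 := ends_unique hlt (hP2 ⟨s(i, j), G.mem_edgeSet.mpr hij⟩) (hP3 _)
    rw [← h1.1, ← h1.2]
  refine ⟨g, ?_, g1⟩
  have h1 : (br F A).compr₂ g = (br F A).compl₁₂ g g := by
    refine LinearMap.ext_basis b b fun i j => ?_
    rw [LinearMap.compr₂_apply, LinearMap.compl₁₂_apply, br_apply, br_apply]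
    rcases i with i | i
    · rcases j with j | j
      · by_cases hij : G.Adj i j
        · rcases lt_or_gt_of_ne hij.ne with hlt | hlt
          · rw [h.adj i j hij hlt, g3 i j hij hlt, g1, g1]
          · rw [← lie_skew, h.adj j i hij.symm hlt, map_neg, g3 j i hij.symm hlt, g1, g1,
              lie_skew]
        · rw [h.nadj i j hij, map_zero, g1, g1, hx i j hij]
      · rw [h.cen'', map_zero, g2, ← lie_skew, h.lie_lie, neg_zero]
    · rw [h.cen', map_zero, g2, h.lie_lie]
  intro u v
  exact congrArg (fun f : A →ₗ[F] A →ₗ[F] A => f u v) h1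

/-- spectrum of a homomorphism from polynomial identities on the vertices -/
lemma GB.spectrum (h : GB b) [Fintype G.edgeSet] [IsAlgClosed F] [FiniteDimensional F A]
    {g : A →ₗ[F] A} (hg : IsH g) (q : Fin n → F[X])
    (hq : ∀ s, aeval g (q s) (b (Sum.inl s)) = 0) {z : F} (hz : Module.End.HasEigenvalue g z) :
    (∃ s, (q s).eval z = 0) ∨ ∃ s t, G.Adj s t ∧ ∃ α β, (q s).eval α = 0 ∧ (q t).eval β = 0 ∧
      z = α * β := by
  classical
  by_contra hcon
  push Not at hcon
  obtain ⟨hc1, hc2⟩ := hcon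
  set T : Submodule F A := ⨆ w ≠ z, Module.End.maxGenEigenspace g w with hT
  have hle : ∀ w, w ≠ z → Module.End.maxGenEigenspace g w ≤ T := fun w hw =>
    le_iSup₂_of_le (f := fun w (_ : w ≠ z) => Module.End.maxGenEigenspace g w) w hw le_rfl
  have hvert : ∀ s, b (Sum.inl s) ∈ T := by
    intro s
    refine (iSup₂_le fun α hα => hle α ?_ : _ ≤ T) (split_gen g (hq s))
    rintro rfl
    exact hc1 s hα
  have hpair : ∀ s t, G.Adj s t → ⁅b (Sum.inl s), b (Sum.inl t)⁆ ∈ T := by
    intro s t hst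
    have key : ∀ α β, (q s).eval α = 0 → (q t).eval β = 0 → ∀ x ∈ Module.End.maxGenEigenspace g α,
        ∀ y ∈ Module.End.maxGenEigenspace g β, ⁅x, y⁆ ∈ T := by
      intro α β hα hβ x hx y hy
      exact hle _ (fun h0 => hc2 s t hst α β hα hβ h0.symm) (lie_maxGen hg hx hy)
    have key2 : ∀ β, (q t).eval β = 0 → ∀ y ∈ Module.End.maxGenEigenspace g β,
        ⁅b (Sum.inl s), y⁆ ∈ T := by
      intro β hβ y hy
      have h1 : (⨆ α ∈ {α : F | (q s).eval α = 0}, Module.End.maxGenEigenspace g α) ≤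
          T.comap ((br F A).flip y) := by
        refine iSup₂_le fun α hα x hx => ?_
        exact key α β hα hβ x hx y hy
      exact h1 (split_gen g (hq s))
    have h1 : (⨆ β ∈ {β : F | (q t).eval β = 0}, Module.End.maxGenEigenspace g β) ≤
        T.comap (br F A (b (Sum.inl s))) := by
      refine iSup₂_le fun β hβ y hy => ?_
      exact key2 β hβ y hy
    exact h1 (split_gen g (hq t))
  have htop : T = ⊤ := by
    rw [eq_top_iff, ← b.span_eq]
    refine Submodule.span_le.2 ?_
    rintro _ ⟨k, rfl⟩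
    rcases k with s | y
    · exact hvert s
    · obtain ⟨p, hp, hlt, hy⟩ := ends y
      change b (Sum.inr y) ∈ T
      rw [hy, ← h.adj p.1 p.2 hp hlt]
      exact hpair _ _ hp
  have hind := Module.End.independent_maxGenEigenspace g z
  rw [← hT, htop, disjoint_top] at hind
  obtain ⟨v, hv⟩ := hz.exists_hasEigenvector
  have h1 : v ∈ Module.End.maxGenEigenspace g z := by
    rw [Module.End.mem_maxGenEigenspace]
    refine ⟨1, ?_⟩
    rw [pow_one, LinearMap.sub_apply, hv.apply_eq_smul]
    simp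
  rw [hind] at h1
  exact hv.2 h1

end

end Pool.Agent.H446R3.AG
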