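import Pool.Agent.H446R3.AG.Build

set_option autoImplicit false
set_option linter.unusedSectionVars false
open Topology Filter Polynomial
open scoped TensorProduct

namespace Pool.Agent.H446R3.AG

noncomputable section

variable {n : ℕ} {G : SimpleGraph (Fin n)}

/-- weight of a vertex -/
def wv (n : ℕ) (s : Fin n) : ℤ := 5 * (n + 1) * 2 ^ (s : ℕ) + 1

/-- weight of an edge -/
def we (n : ℕ) (x : Sym2 (Fin n)) : ℤ :=
  Sym2.lift ⟨fun s t => wv n s + wv n t, fun _ _ => add_comm _ _⟩ x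

/-- all weights -/
def ww (G : SimpleGraph (Fin n)) : Fin n ⊕ G.edgeSet → ℤ :=
  Sum.elim (wv n) (fun x => we n x.1)

lemma we_mk (s t : Fin n) : we n s(s, t) = wv n s + wv n t := rfl

lemma sum_two_pow {S T : Finset (Fin n)} (h : ∑ u ∈ S, 2 ^ (u : ℕ) = ∑ u ∈ T, 2 ^ (u : ℕ)) :
    S = T := by
  have h1 : ∑ i ∈ S.map Fin.valEmbedding, 2 ^ i = ∑ i ∈ T.map Fin.valEmbedding, 2 ^ i := by
    rw [Finset.sum_map, Finset.sum_map]; exact h
  exact Finset.map_injective Fin.valEmbedding (Finset.geomSum_injective le_rfl h1)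

lemma sum_wv (S : Finset (Fin n)) :
    ∑ u ∈ S, wv n u = 5 * (n + 1) * ((∑ u ∈ S, 2 ^ (u : ℕ) : ℕ) : ℤ) + S.card := by
  unfold wv
  rw [Finset.sum_add_distrib, ← Finset.mul_sum]
  push_cast
  simp

lemma sum_wv_inj {S T : Finset (Fin n)} (h : ∑ u ∈ S, wv n u = ∑ u ∈ T, wv n u) : S = T := by
  rw [sum_wv, sum_wv] at h
  apply sum_two_pow
  have hS : S.card ≤ n := by simpa using Finset.card_le_univ S
  have hT : T.card ≤ n := by simpa using Finset.card_le_univ T
  set a := ∑ u ∈ S, 2 ^ (u : ℕ)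
  set b := ∑ u ∈ T, 2 ^ (u : ℕ)
  by_contra hne
  rcases lt_or_gt_of_ne hne with hlt | hlt
  · have h1 : (a : ℤ) + 1 ≤ b := by exact_mod_cast hlt
    have h2 : (5 * ((n : ℤ) + 1)) * (a + 1) ≤ (5 * ((n : ℤ) + 1)) * b :=
      mul_le_mul_of_nonneg_left h1 (by positivity)
    have hS' : (S.card : ℤ) ≤ n := by exact_mod_cast hS
    have hT' : (0 : ℤ) ≤ T.card := by positivity
    nlinarith
  · have h1 : (b : ℤ) + 1 ≤ a := by exact_mod_cast hlt
    have h2 : (5 * ((n : ℤ) + 1)) * (b + 1) ≤ (5 * ((n : ℤ) + 1)) * a :=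
      mul_le_mul_of_nonneg_left h1 (by positivity)
    have hT' : (T.card : ℤ) ≤ n := by exact_mod_cast hT
    have hS' : (0 : ℤ) ≤ S.card := by positivity
    nlinarith

lemma wv_mod (s : Fin n) : wv n s % 5 = 1 := by
  unfold wv
  rw [mul_assoc, Int.add_emod, Int.mul_emod_right]; rfl

lemma we_mod (x : Sym2 (Fin n)) : we n x % 5 = 2 := by
  induction x using Sym2.ind with
  | _ s t => rw [we_mk, Int.add_emod, wv_mod, wv_mod]; rfl

lemma ww_mod (k : Fin n ⊕ G.edgeSet) : ww G k % 5 = 1 ∨ ww G k % 5 = 2 := by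
  rcases k with s | x
  · left; exact wv_mod s
  · right; exact we_mod x.1

lemma pair_inj {s t i j : Fin n} (hst : s ≠ t) (hij : i ≠ j)
    (h : wv n s + wv n t = wv n i + wv n j) : s(s, t) = s(i, j) := by
  have h1 : ∑ u ∈ ({s, t} : Finset (Fin n)), wv n u = ∑ u ∈ ({i, j} : Finset (Fin n)), wv n u := by
    rw [Finset.sum_pair hst, Finset.sum_pair hij]; exact h
  have h2 := sum_wv_inj h1
  have hs : s ∈ ({i, j} : Finset (Fin n)) := by rw [← h2]; simp
  have ht : t ∈ ({i, j} : Finset (Fin n)) := by rw [← h2]; simp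
  simp only [Finset.mem_insert, Finset.mem_singleton] at hs ht
  rcases hs with rfl | rfl
  · rcases ht with rfl | rfl
    · exact absurd rfl hst
    · rfl
  · rcases ht with rfl | rfl
    · exact Sym2.eq_swap
    · exact absurd rfl hst

lemma ww_inj [Fintype G.edgeSet] : Function.Injective (ww G) := by
  rintro (s | x) (t | y) h
  · have h1 : ∑ u ∈ ({s} : Finset (Fin n)), wv n u = ∑ u ∈ ({t} : Finset (Fin n)), wv n u := by
      rw [Finset.sum_singleton, Finset.sum_singleton]; exact h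
    have h2 := sum_wv_inj h1
    rw [Finset.singleton_inj] at h2
    rw [h2]
  · have h1 : wv n s = we n y.1 := h
    have h2 := wv_mod s
    rw [h1, we_mod] at h2; omega
  · have h1 : we n x.1 = wv n t := h
    have h2 := wv_mod t
    rw [← h1, we_mod] at h2; omega
  · obtain ⟨p, hp, -, hx⟩ := ends x
    obtain ⟨p', hp', -, hy⟩ := ends y
    have h1 : we n x.1 = we n y.1 := h
    rw [hx, hy] at h1 ⊢
    have h2 := pair_inj hp.ne hp'.ne h1
    congr 1
    exact Subtype.ext h2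

lemma ww_cen (x : G.edgeSet) (j k : Fin n ⊕ G.edgeSet) :
    ww G (Sum.inr x) + ww G j ≠ ww G k := by
  intro h
  have h1 : ww G (Sum.inr x) % 5 = 2 := we_mod x.1
  have h2 := ww_mod j
  have h3 := ww_mod k
  omega

lemma ww_adj [Fintype G.edgeSet] (s t : Fin n) (k : Fin n ⊕ G.edgeSet) (hst : s ≠ t)
    (h : ww G (Sum.inl s) + ww G (Sum.inl t) = ww G k) :
    ∃ h : G.Adj s t, k = Sum.inr ⟨s(s, t), G.mem_edgeSet.mpr h⟩ := by
  rcases k with u | x
  · have h1 : ww G (Sum.inl s) % 5 = 1 := wv_mod s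
    have h2 : ww G (Sum.inl t) % 5 = 1 := wv_mod t
    have h3 : ww G (Sum.inl u) % 5 = 1 := wv_mod u
    omega
  · obtain ⟨p, hp, -, hx⟩ := ends x
    rw [hx] at h ⊢
    have h1 : wv n s + wv n t = wv n p.1 + wv n p.2 := h
    have h2 := pair_inj hst hp.ne h1
    have hadj : G.Adj s t := by
      rw [← G.mem_edgeSet, h2]; exact G.mem_edgeSet.mpr hp
    refine ⟨hadj, ?_⟩
    congr 1
    exact Subtype.ext h2.symm

variable {N : Type} [LieRing N] [LieAlgebra ℚ N] [FiniteDimensional ℚ N]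
  {b : Module.Basis (Fin n ⊕ G.edgeSet) ℚ N}

/-- the diagonal derivation -/
def DN (b : Module.Basis (Fin n ⊕ G.edgeSet) ℚ N) : N →ₗ[ℚ] N :=
  b.constr ℚ fun k => ((ww G k : ℤ) : ℚ) • b k

lemma DN_b (k : Fin n ⊕ G.edgeSet) : DN b (b k) = ((ww G k : ℤ) : ℚ) • b k :=
  b.constr_basis ℚ _ _

lemma DN_isD (h : GB b) : IsD (DN b) := by
  let L : N →ₗ[ℚ] N →ₗ[ℚ] N := (br ℚ N).compr₂ (DN b)
  let R : N →ₗ[ℚ] N →ₗ[ℚ] N := (br ℚ N).compl₁₂ (DN b) LinearMap.id +
    (br ℚ N).compl₁₂ LinearMap.id (DN b)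
  have h1 : L = R := by
    refine LinearMap.ext_basis b b fun i j => ?_
    change DN b ⁅b i, b j⁆ = ⁅DN b (b i), b j⁆ + ⁅b i, DN b (b j)⁆
    rw [DN_b, DN_b, smul_lie, lie_smul, ← add_smul]
    rcases i with i | i
    · rcases j with j | j
      · by_cases hij : G.Adj i j
        · rcases lt_or_gt_of_ne hij.ne with hlt | hlt
          · rw [h.adj i j hij hlt, DN_b]
            congr 1
            change ((wv n i + wv n j : ℤ) : ℚ) = (wv n i : ℚ) + (wv n j : ℚ)
            push_cast; rfl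
          · rw [← lie_skew, h.adj j i hij.symm hlt, map_neg, DN_b, smul_neg]
            congr 2
            change ((wv n j + wv n i : ℤ) : ℚ) = (wv n i : ℚ) + (wv n j : ℚ)
            push_cast; ring
        · rw [h.nadj i j hij, map_zero, smul_zero]
      · rw [h.cen'', map_zero, smul_zero]
    · rw [h.cen', map_zero, smul_zero]
  intro x y
  exact congrArg (fun f : N →ₗ[ℚ] N →ₗ[ℚ] N => f x y) h1

lemma DN_charpoly [Fintype G.edgeSet] :
    LinearMap.charpoly (DN b) = ∏ k, (X - C (((ww G k : ℤ) : ℚ))) := by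
  classical
  have h1 : LinearMap.toMatrix b b (DN b) = Matrix.diagonal fun k => ((ww G k : ℤ) : ℚ) := by
    ext i j
    rw [LinearMap.toMatrix_apply, DN_b, map_smul, Module.Basis.repr_self, Finsupp.smul_apply,
      Finsupp.single_apply, Matrix.diagonal_apply, smul_eq_mul]
    by_cases hij : i = j
    · subst hij; simp
    · rw [if_neg hij, if_neg (fun h => hij h.symm), mul_zero]
  rw [← LinearMap.charpoly_toMatrix (DN b) b, h1, Matrix.charpoly_diagonal]

end

end Pool.Agent.H446R3.AG
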